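import Pool.Agent.LibMes.FDefs

/-! Moments of the normal distribution. -/

open MeasureTheory ProbabilityTheory Set Filter Topology Mes
open scoped NNReal Nat

namespace GWin

theorem even_int (b : ℝ) (hb : 0 < b) (k : ℕ) :
    ∫ x : ℝ, x ^ (2 * k) * Real.exp (-b * x ^ 2)
      = b ^ (-((2 * k : ℕ) + 1) / 2 : ℝ) * Real.Gamma (k + 1 / 2) := by
  have h1 : (∫ x : ℝ, x ^ (2 * k) * Real.exp (-b * x ^ 2))
      = ∫ x : ℝ, (fun y : ℝ => y ^ (2 * k) * Real.exp (-b * y ^ 2)) |x| := by
    refine integral_congr_ae (Eventually.of_forall fun x => ?_)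
    dsimp only
    rw [pow_mul, pow_mul, sq_abs]
  rw [h1, integral_comp_abs (f := fun y : ℝ => y ^ (2 * k) * Real.exp (-b * y ^ 2))]
  have h2 := integral_rpow_mul_exp_neg_mul_rpow (p := 2) (q := ((2 * k : ℕ) : ℝ)) (b := b)
    (by norm_num) (by have : (0 : ℝ) ≤ ((2 * k : ℕ) : ℝ) := Nat.cast_nonneg _; linarith) hb
  have h3 : ∫ x in Ioi (0 : ℝ), x ^ (((2 * k : ℕ) : ℝ)) * Real.exp (-b * x ^ (2 : ℝ))
      = ∫ x in Ioi (0 : ℝ), x ^ (2 * k) * Real.exp (-b * x ^ 2) := by
    refine setIntegral_congr_fun measurableSet_Ioi fun x _ => ?_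
    rw [Real.rpow_natCast]
    congr 3
    exact_mod_cast Real.rpow_natCast x 2
  rw [← h3, h2]
  have h4 : (((2 * k : ℕ) : ℝ) + 1) / 2 = k + 1 / 2 := by push_cast; ring
  rw [h4]
  ring

theorem gauss_moments (v : ℝ≥0) (r : ℕ) :
    ∫ y, y ^ r ∂(gaussianReal 0 v) = gaussMom v r := by
  by_cases hv : v = 0
  · subst hv
    rw [gaussianReal_zero_var, integral_dirac]
    unfold gaussMom
    rcases r with _ | r
    · simp
    · split_ifs with h
      · rw [NNReal.coe_zero, zero_pow (by omega), zero_pow, mul_zero]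
        intro h0
        have : 2 ∣ r + 1 := even_iff_two_dvd.1 h
        omega
      · simp
  · have hv0 : 0 < (v : ℝ) := by
      have := pos_iff_ne_zero.2 hv
      exact_mod_cast this
    rw [integral_gaussianReal_eq_integral_smul hv]
    have e1 : ∀ x : ℝ, gaussianPDFReal 0 v x • x ^ r
        = (√(2 * Real.pi * v))⁻¹ * (x ^ r * Real.exp (-(1 / (2 * v)) * x ^ 2)) := by
      intro x
      unfold gaussianPDFReal
      rw [smul_eq_mul, sub_zero]
      have : -x ^ 2 / (2 * (v : ℝ)) = -(1 / (2 * v)) * x ^ 2 := by ring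
      rw [this]
      ring
    simp_rw [e1]
    rw [integral_const_mul]
    unfold gaussMom
    split_ifs with h
    · obtain ⟨k, hk⟩ := h
      have hk2 : r = 2 * k := by omega
      subst hk2
      rw [even_int _ (by positivity) k, Real.Gamma_nat_add_half, Nat.mul_div_cancel_left k (by norm_num)]
      have h5 : (1 / (2 * (v : ℝ))) ^ (-((2 * k : ℕ) + 1) / 2 : ℝ)
          = (2 * v) ^ k * √(2 * v) := by
        rw [one_div, Real.inv_rpow (by positivity), ← Real.rpow_neg (by positivity)]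
        have : -(-(((2 * k : ℕ) : ℝ) + 1) / 2) = (k : ℝ) + 1 / 2 := by push_cast; ring
        rw [this, Real.rpow_add (by positivity), Real.rpow_natCast, Real.sqrt_eq_rpow]
      rw [h5]
      have h6 : √(2 * Real.pi * (v : ℝ)) = √(2 * v) * √Real.pi := by
        rw [← Real.sqrt_mul (by positivity)]
        congr 1
        ring
      rw [h6, mul_pow]
      have h7 : √(2 * (v : ℝ)) ≠ 0 := (Real.sqrt_pos.2 (by positivity)).ne'
      have h8 : √Real.pi ≠ 0 := (Real.sqrt_pos.2 Real.pi_pos).ne'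
      field_simp
    · have hodd : Odd r := Nat.not_even_iff_odd.1 h
      have h1 := integral_neg_eq_self (fun x : ℝ => x ^ r * Real.exp (-(1 / (2 * (v : ℝ))) * x ^ 2))
        volume
      have h2 : ∀ x : ℝ, (-x) ^ r * Real.exp (-(1 / (2 * (v : ℝ))) * (-x) ^ 2)
          = -(x ^ r * Real.exp (-(1 / (2 * (v : ℝ))) * x ^ 2)) := by
        intro x
        rw [hodd.neg_pow, neg_sq]
        ring
      simp_rw [h2] at h1
      rw [integral_neg] at h1
      have h3 : ∫ x : ℝ, x ^ r * Real.exp (-(1 / (2 * (v : ℝ))) * x ^ 2) = 0 := by linarith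
      rw [h3, mul_zero]

end GWin
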