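import Pool.Agent.LibGWa.U8

/-! The abstract theorem for the spectrum of a surface. -/

open MeasureTheory ProbabilityTheory Set Filter Topology FG33 Mes BGS
open scoped ContDiff

namespace GWin

theorem Sep.mono {G : Geo} {L Lam : ℝ → ℝ} (h : Sep G Lam) (h1 : ∀ᶠ T in atTop, L T ≤ Lam T)
    (h0 : ∀ᶠ T in atTop, 0 ≤ L T) : Sep G L := by
  intro r C
  filter_upwards [h r |C|, h1, h0] with T hT hT1 hT0
  intro s e hs he hb
  refine hT s e hs he fun p hp => ?_
  have h2 := hb p hp
  have h3 : C * L T ≤ |C| * Lam T := by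
    calc C * L T ≤ |C| * L T := mul_le_mul_of_nonneg_right (le_abs_self C) hT0
      _ ≤ |C| * Lam T := mul_le_mul_of_nonneg_left hT1 (abs_nonneg C)
  exact ⟨h2.1.trans h3, h2.2.trans h3⟩

/-- Growth of the wave numbers from a linear lower bound of the unfolded levels. -/
theorem lev_of_linear {κ y : ℕ → ℝ} (hκ : ∀ n, κ n = √(4 * Real.pi * y n)) {c C : ℝ} (hc : 0 < c)
    (h : ∀ n : ℕ, c * n - C ≤ y n) : Lev κ := by
  refine ⟨fun n => by rw [hκ]; exact Real.sqrt_nonneg _, ?_⟩
  have hpi := Real.pi_gt_three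
  set D := |C| with hD
  have hD0 : 0 ≤ D := abs_nonneg C
  refine ⟨√(4 * Real.pi * c) / (√(4 * Real.pi * D) + 1), by positivity, fun n => ?_⟩
  rw [div_mul_eq_mul_div, div_le_iff₀ (by positivity), ← Real.sqrt_mul (by positivity)]
  have h1 : 4 * Real.pi * c * n ≤ 4 * Real.pi * y n + 4 * Real.pi * D := by
    have h2 := h n
    have h3 := le_abs_self C
    have h4 : c * n ≤ y n + D := by linarith
    nlinarith
  have h2 : √(4 * Real.pi * c * n) ≤ κ n + √(4 * Real.pi * D) := by
    rw [hκ]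
    refine (Real.sqrt_le_sqrt h1).trans ?_
    rcases le_total 0 (4 * Real.pi * y n) with h3 | h3
    · rw [Real.sqrt_le_left (by positivity)]
      have h5 := Real.sq_sqrt h3
      have h6 := Real.sq_sqrt (show 0 ≤ 4 * Real.pi * D by positivity)
      have h7 := Real.sqrt_nonneg (4 * Real.pi * y n)
      have h8 := Real.sqrt_nonneg (4 * Real.pi * D)
      nlinarith [mul_nonneg h7 h8]
    · rw [Real.sqrt_eq_zero_of_nonpos h3, zero_add]
      exact Real.sqrt_le_sqrt (by linarith)
  have h3 : 0 ≤ κ n := by rw [hκ]; exact Real.sqrt_nonneg _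
  have h4 := Real.sqrt_nonneg (4 * Real.pi * D)
  nlinarith

variable {Γ : Type} [Group Γ] [MulAction Γ Pl] {D : Set Pl}

theorem goeWindows {m : Mt Γ D} {G : Geo} {κ : ℝ} (h : Ok G κ) (hSR : SumRule G)
    (hl : Lev (lam m)) (hT : Trace G (lam m)) {Lam : ℝ → ℝ}
    (hLam : Tendsto (fun T => Lam T / Real.log T) atTop (𝓝 0)) (hS : Sep G Lam) {L : ℝ → ℝ}
    (hL : Tendsto L atTop atTop) (hL' : ∀ᶠ T in atTop, L T ≤ Lam T) : GOEWindows m L := by
  have h0 : ∀ᶠ T in atTop, 0 ≤ L T := hL.eventually (eventually_ge_atTop 0)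
  have h1 : Tendsto (fun T => L T / Real.log T) atTop (𝓝 0) := by
    refine squeeze_zero' ?_ ?_ hLam
    · filter_upwards [h0, eventually_gt_atTop 1] with T hT hT1
      exact div_nonneg hT (Real.log_pos hT1).le
    · filter_upwards [hL', eventually_gt_atTop 1] with T hT hT1
      exact div_le_div_of_nonneg_right hT (Real.log_pos hT1).le
  intro a ha
  exact main h hSR hl hT hL h1 (hS.mono hL' h0) ha

end GWin
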