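import Pool.Agent.LibGWa.U4
import Pool.Agent.LibGW18.Mom

/-! Moments of the sum over the closed geodesics. -/

open MeasureTheory Set Filter Topology FG33 Mes
open scoped ContDiff

namespace GWin

/-- Separation of the lengths. -/
def Sep (G : Geo) (L : ℝ → ℝ) : Prop :=
  ∀ (r : ℕ) (C : ℝ), ∀ᶠ T : ℝ in atTop, ∀ (s : Finset G.P) (e : G.P → ℤ), s.card ≤ r →
    (∃ p ∈ s, e p ≠ 0) → (∀ p ∈ s, |(e p : ℝ)| ≤ C * L T ∧ G.len p ≤ C * L T) →
    T ^ (-(1 / 2) : ℝ) ≤ |∑ p ∈ s, (e p : ℝ) * G.len p|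

theorem gaussMom_cont (r : ℕ) : Continuous fun S : ℝ => gaussMom S r := by
  unfold gaussMom
  split_ifs
  · fun_prop
  · fun_prop

/-- The separation in the form of `TM`. -/
theorem sep_apply {G : Geo} {κ : ℝ} (h : Ok G κ) {L : ℝ → ℝ} (hL : Tendsto L atTop atTop)
    (hS : Sep G L) (r : ℕ) {R : ℝ} (hR : 0 ≤ R) :
    ∀ᶠ T : ℝ in atTop, ∀ e : G.P →₀ ℤ, e ≠ 0 → e.support.card ≤ r →
      (∀ p, |(e p : ℝ)| * G.len p ≤ r * (R * L T)) →
      T ^ (-(1 / 2) : ℝ) ≤ |e.sum fun p n => n * G.len p| := by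
  obtain ⟨l0, hl0, hl⟩ := exists_l0 h
  filter_upwards [hS r (r * R / l0 + r * R), hL.eventually (eventually_ge_atTop 1)] with T hT hL1
  intro e he hcard hbd
  have hr : 0 ≤ (r : ℝ) := Nat.cast_nonneg r
  refine (hT e.support e hcard ?_ ?_).trans (le_of_eq rfl)
  · obtain ⟨p, hp⟩ := Finsupp.support_nonempty_iff.2 he
    exact ⟨p, hp, Finsupp.mem_support_iff.1 hp⟩
  · intro p hp
    have h1 : (1 : ℝ) ≤ |(e p : ℝ)| := by
      have := Int.one_le_abs (Finsupp.mem_support_iff.1 hp)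
      exact_mod_cast this
    have h2 := hbd p
    have h3 := hl p
    have h4 := h.pos p
    have h5 : 0 ≤ r * R / l0 * L T := by positivity
    have h6 : 0 ≤ r * R * L T := by positivity
    constructor
    · have h7 : |(e p : ℝ)| * l0 ≤ r * (R * L T) := by nlinarith
      rw [← le_div_iff₀ hl0] at h7
      calc |(e p : ℝ)| ≤ r * (R * L T) / l0 := h7
        _ = r * R / l0 * L T := by ring
        _ ≤ _ := by nlinarith
    · nlinarith

/-- The pairs (primitive closed geodesic, number of turns) of total length at most `t`. -/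
noncomputable def Sf (G : Geo) (t : ℝ) : Finset (G.P × ℕ) :=
  open Classical in
  (ball G t ×ˢ Finset.Ico 1 (KK G t + 1)).filter fun q => (q.2 : ℝ) * G.len q.1 ≤ t

theorem mem_Sf {G : Geo} {t : ℝ} {q : G.P × ℕ} (hq : q ∈ Sf G t) :
    q.1 ∈ ball G t ∧ 1 ≤ q.2 ∧ q.2 < KK G t + 1 ∧ (q.2 : ℝ) * G.len q.1 ≤ t := by
  classical
  unfold Sf at hq
  rw [Finset.mem_filter, Finset.mem_product, Finset.mem_Ico] at hq
  exact ⟨hq.1.1, hq.1.2.1, hq.1.2.2, hq.2⟩

theorem Sf_sum (G : Geo) (t : ℝ) (F : G.P → ℕ → ℝ)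
    (hF : ∀ (p : G.P) (k : ℕ), t < ((k : ℝ) + 1) * G.len p → F p k = 0) (f : G.P × ℕ → ℝ)
    (hf : ∀ (p : G.P) (k : ℕ), f (p, k + 1) = F p k) :
    ∑ q ∈ Sf G t, f q = ∑ p ∈ ball G t, ∑ k ∈ Finset.range (KK G t), F p k := by
  classical
  unfold Sf
  rw [Finset.sum_filter_of_ne, Finset.sum_product]
  · refine Finset.sum_congr rfl fun p _ => ?_
    rw [Finset.sum_Ico_eq_sum_range]
    refine Finset.sum_congr (by simp) fun k _ => ?_
    rw [add_comm 1 k, hf]
  · rintro ⟨p, k⟩ hq h0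
    rw [Finset.mem_product, Finset.mem_Ico] at hq
    obtain ⟨k, rfl⟩ : ∃ j, k = j + 1 := ⟨k - 1, by have := hq.2.1; dsimp only at this; omega⟩
    rw [hf] at h0
    by_contra h1
    refine h0 (hF p k ?_)
    rw [not_le] at h1
    simpa using h1

theorem osc_moments {G : Geo} {κ : ℝ} (h : Ok G κ) (hSR : SumRule G) {L : ℝ → ℝ}
    (hL : Tendsto L atTop atTop) (hL' : Tendsto (fun T => L T / Real.log T) atTop (𝓝 0))
    (hS : Sep G L) {a : ℝ → ℂ} (ha : IsAmp a) {R : ℝ} (hR0 : 0 ≤ R)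
    (hR : ∀ s, R ≤ |s| → a s = 0) (r : ℕ) :
    Tendsto (fun T => (1 / T) * ∫ u in T..2 * T, Osc G a R (L T) u ^ r) atTop
      (𝓝 (gaussMom (vg a) r)) := by
  classical
  obtain ⟨C, hC0, hC⟩ := torus_moments r
  obtain ⟨A, hA⟩ : ∃ A, ∀ s, ‖a s‖ ≤ A := by
    obtain ⟨x, hx⟩ := ha.smooth.continuous.norm.exists_forall_ge_of_hasCompactSupport ha.supp.norm
    exact ⟨_, hx⟩
  obtain ⟨C1, hC1, h1⟩ := amp_sum_le h hA
  obtain ⟨C2, hC2, h2⟩ := amp_total_le h hA hR0
  have hV : Tendsto (fun T => Vr G a R (L T)) atTop (𝓝 (vg a)) :=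
    (Vr_tendsto h hSR (ha.smooth.of_le (by exact_mod_cast le_top)) hR0
      (fun s hs => hR s (hs.trans (le_abs_self s))) hA).comp hL
  have hG : Tendsto (fun T => gaussMom (Vr G a R (L T)) r) atTop (𝓝 (gaussMom (vg a) r)) :=
    ((gaussMom_cont r).tendsto _).comp hV
  -- the error
  have hE1 : Tendsto (fun T => C * (1 + √(Vr G a R (L T))) ^ r * (C1 / L T)) atTop (𝓝 0) := by
    have h3 : Tendsto (fun T => C1 / L T) atTop (𝓝 0) := tendsto_const_nhds.div_atTop hL
    have h5 : Tendsto (fun T => √(Vr G a R (L T))) atTop (𝓝 (√(vg a))) :=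
      (Real.continuous_sqrt.tendsto _).comp hV
    have h4 := (((h5.const_add 1).pow r).const_mul C).mul h3
    simpa using h4
  have hE2 : Tendsto (fun T : ℝ => 2 * T ^ (-(1 / 4) : ℝ)) atTop (𝓝 0) := by
    have := (tendsto_rpow_neg_atTop (show (0 : ℝ) < 1 / 4 by norm_num)).const_mul 2
    simpa using this
  have hE := hE1.add hE2
  rw [add_zero] at hE
  -- eventually
  have hev : ∀ᶠ T in atTop, |(1 / T) * (∫ u in T..2 * T, Osc G a R (L T) u ^ r)
      - gaussMom (Vr G a R (L T)) r| ≤ C * (1 + √(Vr G a R (L T))) ^ r * (C1 / L T)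
        + 2 * T ^ (-(1 / 4) : ℝ) := by
    have hsmall : ∀ᶠ T : ℝ in atTop, |L T / Real.log T| ≤ 1 / (4 * (r * C2 + 1)) := by
      have := hL'.abs
      rw [abs_zero] at this
      exact (this.eventually (gt_mem_nhds (by positivity))).mono fun _ h => h.le
    filter_upwards [hsmall, hL.eventually (eventually_ge_atTop (max 1 C1)), eventually_gt_atTop 1,
      sep_apply h hL hS r hR0] with T hT1 hT2 hT3 hT4
    have hL1 : 1 ≤ L T := (le_max_left _ _).trans hT2
    have hL2 : C1 ≤ L T := (le_max_right _ _).trans hT2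
    have hL0 : 0 < L T := by linarith
    have hT0 : 0 < T := by linarith
    have hlog : 0 < Real.log T := Real.log_pos hT3
    have hz : ∀ (p : G.P) (k : ℕ), R * L T < ((k : ℝ) + 1) * G.len p → amp G a (L T) p k = 0 := by
      intro p k hk
      unfold amp
      rw [hR, mul_zero]
      have h4 := h.pos p
      rw [abs_of_nonneg (by positivity), le_div_iff₀ hL0]
      exact hk.le
    have h3 := hC G.P G.len (Sf G (R * L T)) (fun q => amp G a (L T) q.1 (q.2 - 1)) (R * L T)
      (T ^ (-(1 / 2) : ℝ)) T (C1 / L T) (fun p => (h.pos p).le) (fun q hq => (mem_Sf hq).2.1)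
      (fun q hq => (mem_Sf hq).2.2.2) (by positivity) hT0 (by positivity)
      (by rw [div_le_one hL0]; exact hL2)
      (by
        intro p S' hS' hp
        have h4 : ∑ q ∈ S', ‖amp G a (L T) q.1 (q.2 - 1)‖
            = ∑ k ∈ S'.image (fun q => q.2 - 1), ‖amp G a (L T) p k‖ := by
          rw [Finset.sum_image]
          · refine Finset.sum_congr rfl fun q hq => ?_
            rw [hp q hq]
          · intro q hq q' hq' he
            have h5 := (mem_Sf (hS' hq)).2.1
            have h6 := (mem_Sf (hS' hq')).2.1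
            dsimp only at he
            exact Prod.ext ((hp q hq).trans (hp q' hq').symm) (by omega)
        rw [h4]
        refine (Finset.sum_le_sum_of_subset_of_nonneg (t := Finset.range (KK G (R * L T))) ?_
          fun _ _ _ => norm_nonneg _).trans (h1 (L T) p _ hL0)
        intro k hk
        rw [Finset.mem_image] at hk
        obtain ⟨q, hq, rfl⟩ := hk
        have h5 := (mem_Sf (hS' hq)).2.2.1
        have h6 := (mem_Sf (hS' hq)).2.1
        rw [Finset.mem_range]
        omega) hT4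
    have e1 : ∀ u : ℝ, (∑ q ∈ Sf G (R * L T), (amp G a (L T) q.1 (q.2 - 1) *
        Complex.exp (-((u * (q.2 * G.len q.1) : ℝ) : ℂ) * Complex.I)).re)
          = Osc G a R (L T) u := by
      intro u
      refine Sf_sum G (R * L T) (fun p k => (amp G a (L T) p k * Complex.exp
        (-((u * (((k : ℝ) + 1) * G.len p) : ℝ) : ℂ) * Complex.I)).re) ?_ _ ?_
      · intro p k hk
        rw [hz p k hk, zero_mul, Complex.zero_re]
      · intro p k
        dsimp only
        rw [Nat.add_sub_cancel]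
        push_cast
        rfl
    have e2 : (∑ q ∈ Sf G (R * L T), ‖amp G a (L T) q.1 (q.2 - 1)‖ ^ 2 / 2) = Vr G a R (L T) := by
      unfold Vr
      rw [Finset.mul_sum]
      simp_rw [Finset.mul_sum]
      refine Sf_sum G (R * L T) (fun p k => 1 / 2 * ‖amp G a (L T) p k‖ ^ 2) ?_ _ ?_
      · intro p k hk
        rw [hz p k hk]
        simp
      · intro p k
        dsimp only
        rw [Nat.add_sub_cancel]
        ring
    have e3 : (∑ q ∈ Sf G (R * L T), ‖amp G a (L T) q.1 (q.2 - 1)‖) = ∑ p ∈ ball G (R * L T),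
        ∑ k ∈ Finset.range (KK G (R * L T)), ‖amp G a (L T) p k‖ := by
      refine Sf_sum G (R * L T) (fun p k => ‖amp G a (L T) p k‖) ?_ _ ?_
      · intro p k hk
        rw [hz p k hk]
        simp
      · intro p k
        dsimp only
        rw [Nat.add_sub_cancel]
    simp only [e1, e2, e3] at h3
    refine h3.trans ?_
    have h5 := h2 (L T) (KK G (R * L T)) hL1
    have h6 : (∑ p ∈ ball G (R * L T), ∑ k ∈ Finset.range (KK G (R * L T)),
        ‖amp G a (L T) p k‖) ^ r / (T * T ^ (-(1 / 2) : ℝ)) ≤ T ^ (-(1 / 4) : ℝ) := by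
      have h7 : T * T ^ (-(1 / 2) : ℝ) = T ^ (1 / 2 : ℝ) := by
        nth_rewrite 1 [← Real.rpow_one T]
        rw [← Real.rpow_add hT0]
        norm_num
      have h8 : (∑ p ∈ ball G (R * L T), ∑ k ∈ Finset.range (KK G (R * L T)),
          ‖amp G a (L T) p k‖) ^ r ≤ T ^ (1 / 4 : ℝ) := by
        have h9 : 0 ≤ ∑ p ∈ ball G (R * L T), ∑ k ∈ Finset.range (KK G (R * L T)),
            ‖amp G a (L T) p k‖ := Finset.sum_nonneg fun p _ => Finset.sum_nonneg fun k _ => norm_nonneg _
        refine (pow_le_pow_left₀ h9 h5 r).trans ?_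
        rw [← Real.exp_nat_mul, Real.rpow_def_of_pos hT0, Real.exp_le_exp]
        rw [abs_of_pos (by positivity), div_le_iff₀ hlog] at hT1
        have h10 : (r * C2 + 1) * L T ≤ Real.log T * (1 / 4) := by
          have h11 : 0 < (r : ℝ) * C2 + 1 := by positivity
          calc (r * C2 + 1) * L T ≤ (r * C2 + 1) * (1 / (4 * (r * C2 + 1)) * Real.log T) := by
                gcongr
            _ = _ := by field_simp
        nlinarith
      rw [h7, div_le_iff₀ (by positivity), ← Real.rpow_add hT0]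
      refine h8.trans (le_of_eq ?_)
      norm_num
    rw [mul_div_assoc]
    exact add_le_add le_rfl (mul_le_mul_of_nonneg_left h6 (by norm_num))
  have h0 : Tendsto (fun T => (1 / T) * (∫ u in T..2 * T, Osc G a R (L T) u ^ r)
      - gaussMom (Vr G a R (L T)) r) atTop (𝓝 0) :=
    squeeze_zero_norm' (hev.mono fun _ h => h) hE
  have h3 := h0.add hG
  simpa using h3

end GWin
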