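import Pool.Agent.LibGWa.V3

/-! Bounds of the amplitudes and the limit of the variance. -/

open MeasureTheory Set Filter Topology

namespace GWin

variable {G : Geo} {κ : ℝ}

theorem exists_K' (G : Geo) {κ : ℝ} (h : Ok G κ) (t : ℝ) : ∃ K : ℕ, ∀ p, t < ((K : ℝ) + 1) * G.len p :=
  exists_K h t

/-- A bound of the number of repetitions. -/
noncomputable def KK (G : Geo) (t : ℝ) : ℕ := sInf {K : ℕ | ∀ p, t < ((K : ℝ) + 1) * G.len p}

theorem KK_spec (h : Ok G κ) (t : ℝ) : ∀ p, t < ((KK G t : ℝ) + 1) * G.len p :=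
  Nat.sInf_mem (s := {K : ℕ | ∀ p, t < ((K : ℝ) + 1) * G.len p}) (exists_K h t)

theorem KK_le (h : Ok G κ) : ∃ C : ℝ, 0 < C ∧ ∀ t, 0 ≤ t → (KK G t : ℝ) ≤ C * (1 + t) := by
  obtain ⟨l0, hl0, hl⟩ := exists_l0 h
  refine ⟨1 / l0 + 1, by positivity, fun t ht => ?_⟩
  have h1 : KK G t ≤ ⌈t / l0⌉₊ := by
    refine Nat.sInf_le fun p => ?_
    have h1 : t / l0 < (⌈t / l0⌉₊ : ℝ) + 1 := (Nat.le_ceil _).trans_lt (lt_add_one _)
    rw [div_lt_iff₀ hl0] at h1
    refine h1.trans_le ?_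
    have := hl p
    gcongr
  have h2 : (⌈t / l0⌉₊ : ℝ) < t / l0 + 1 := Nat.ceil_lt_add_one (by positivity)
  have h3 : (KK G t : ℝ) ≤ ⌈t / l0⌉₊ := by exact_mod_cast h1
  have h4 : t / l0 = 1 / l0 * t := by ring
  have h5 : 0 < 1 / l0 := by positivity
  nlinarith

/-- `len / √tw` is bounded. -/
theorem lensq_le (h : Ok G κ) (p : G.P) : G.len p / √(G.tw p 1) ≤ 1 / κ := by
  have hk := h.kpos
  have hp := h.pos p
  have h1 : κ * G.len p ≤ √(G.tw p 1) := by
    refine Real.le_sqrt_of_sq_le ?_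
    refine le_trans ?_ (h.lb p)
    have h2 : κ * G.len p / 2 ≤ Real.sinh (κ * G.len p / 2) := Real.self_le_sinh_iff.2 (by positivity)
    have h3 : 0 ≤ κ * G.len p / 2 := by positivity
    nlinarith
  have h2 : 0 < κ * G.len p := by positivity
  rw [div_le_div_iff₀ (h2.trans_le h1) hk]
  linarith

theorem sqrt_rep (h : Ok G κ) (p : G.P) (k : ℕ) :
    G.len p / √(G.tw p (k + 1)) ≤ 1 / κ * Real.exp (-(κ * G.len p) / 2) ^ k := by
  have h1 := tw1_pos h p
  have h2 := h.pw p (k + 1) (by omega)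
  have hp := h.pos p
  have h3 : √(G.tw p 1) * Real.exp ((k : ℝ) * (κ * G.len p) / 2) ≤ √(G.tw p (k + 1)) := by
    refine Real.le_sqrt_of_sq_le ?_
    rw [mul_pow, Real.sq_sqrt h1.le, ← Real.exp_nat_mul]
    refine le_trans (le_of_eq ?_) h2
    congr 2
    push_cast
    ring
  have h4 : 0 < √(G.tw p 1) := Real.sqrt_pos.2 h1
  have h5 : 0 < √(G.tw p 1) * Real.exp ((k : ℝ) * (κ * G.len p) / 2) := mul_pos h4 (Real.exp_pos _)
  refine (div_le_div_of_nonneg_left hp.le h5 h3).trans ?_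
  rw [← div_div, div_eq_mul_inv _ (Real.exp _), ← Real.exp_neg]
  refine mul_le_mul (lensq_le h p) (le_of_eq ?_) (Real.exp_pos _).le (by have := h.kpos; positivity)
  rw [← Real.exp_nat_mul]
  congr 1
  ring

theorem amp_norm (h : Ok G κ) (a : ℝ → ℂ) {L : ℝ} (hL : 0 < L) (p : G.P) (k : ℕ) :
    ‖amp G a L p k‖ = 4 / L * (G.len p / √(G.tw p (k + 1))) * ‖a (((k : ℝ) + 1) * G.len p / L)‖ := by
  unfold amp
  rw [norm_mul, Complex.norm_real, Real.norm_of_nonneg]
  have := h.pos p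
  positivity

theorem amp_sum_le (h : Ok G κ) {a : ℝ → ℂ} {A : ℝ} (hA : ∀ s, ‖a s‖ ≤ A) : ∃ C : ℝ, 0 < C ∧
    ∀ (L : ℝ) (p : G.P) (K : ℕ), 0 < L → ∑ k ∈ Finset.range K, ‖amp G a L p k‖ ≤ C / L := by
  obtain ⟨r0, hr0, hr1, hr⟩ := exists_r0 h
  have hk := h.kpos
  have hA0 : 0 ≤ A := (norm_nonneg _).trans (hA 0)
  have hs1 : √r0 < 1 := by
    rw [show (1 : ℝ) = √1 by simp]
    exact Real.sqrt_lt_sqrt hr0.le hr1
  have hs2 : 0 < 1 - √r0 := by linarith
  refine ⟨4 * (A + 1) / κ * (1 / (1 - √r0)), by positivity, fun L p K hL => ?_⟩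
  have h1 : ∑ k ∈ Finset.range K, ‖amp G a L p k‖ ≤ ∑ k ∈ Finset.range K,
      (4 * (A + 1) / κ / L) * Real.exp (-(κ * G.len p) / 2) ^ k := by
    refine Finset.sum_le_sum fun k _ => ?_
    rw [amp_norm h a hL]
    have h2 := sqrt_rep h p k
    have h3 := hA (((k : ℝ) + 1) * G.len p / L)
    have h4 : 0 ≤ G.len p / √(G.tw p (k + 1)) := div_nonneg (h.pos p).le (Real.sqrt_nonneg _)
    calc 4 / L * (G.len p / √(G.tw p (k + 1))) * ‖a (((k : ℝ) + 1) * G.len p / L)‖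
        ≤ 4 / L * (1 / κ * Real.exp (-(κ * G.len p) / 2) ^ k) * (A + 1) := by
          gcongr
          linarith
      _ = _ := by ring
  refine h1.trans ?_
  rw [← Finset.mul_sum]
  have h5 : Real.exp (-(κ * G.len p) / 2) ≤ √r0 := by
    refine Real.le_sqrt_of_sq_le ?_
    rw [← Real.exp_nat_mul]
    refine le_trans (le_of_eq ?_) (hr p)
    congr 1
    push_cast
    ring
  have h6 := geo_sum_le (Real.exp_pos (-(κ * G.len p) / 2)).le h5 hs1 K
  calc (4 * (A + 1) / κ / L) * ∑ k ∈ Finset.range K, Real.exp (-(κ * G.len p) / 2) ^ k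
      ≤ (4 * (A + 1) / κ / L) * (1 / (1 - √r0)) := by gcongr
    _ = _ := by ring

theorem amp_total_le (h : Ok G κ) {a : ℝ → ℂ} {A R : ℝ} (hA : ∀ s, ‖a s‖ ≤ A) (hR : 0 ≤ R) :
    ∃ C : ℝ, 0 < C ∧ ∀ (L : ℝ) (K : ℕ), 1 ≤ L →
      ∑ p ∈ ball G (R * L), ∑ k ∈ Finset.range K, ‖amp G a L p k‖ ≤ Real.exp (C * L) := by
  obtain ⟨C1, hC1, h1⟩ := amp_sum_le h hA
  obtain ⟨C2, h2⟩ := h.count
  refine ⟨|C2| * R + C1, by positivity, fun L K hL => ?_⟩
  have hL0 : 0 < L := by linarith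
  have h3 : ∑ p ∈ ball G (R * L), ∑ k ∈ Finset.range K, ‖amp G a L p k‖
      ≤ ∑ p ∈ ball G (R * L), C1 := by
    refine Finset.sum_le_sum fun p _ => (h1 L p K hL0).trans ?_
    exact div_le_self hC1.le hL
  refine h3.trans ?_
  rw [Finset.sum_const, nsmul_eq_mul]
  have h4 : ((ball G (R * L)).card : ℝ) ≤ Real.exp (C2 * (R * L)) := by
    refine le_trans (le_of_eq ?_) (h2 (R * L) (by positivity))
    unfold ball
    rw [dif_pos (h.fin _), ncard_eq_toFinset_card _ (h.fin _)]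
  have h5 : Real.exp (C2 * (R * L)) ≤ Real.exp (|C2| * R * L) := by
    rw [Real.exp_le_exp]
    have h6 : 0 ≤ R * L := by positivity
    have h7 := le_abs_self C2
    nlinarith
  have h6 : C1 ≤ Real.exp (C1 * L) := by
    have h7 := Real.add_one_le_exp (C1 * L)
    nlinarith
  calc ((ball G (R * L)).card : ℝ) * C1 ≤ Real.exp (|C2| * R * L) * Real.exp (C1 * L) := by
        gcongr
        exact h4.trans h5
    _ = Real.exp ((|C2| * R + C1) * L) := by rw [← Real.exp_add]; congr 1; ring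

/-- The variance. -/
noncomputable def Vr (G : Geo) (a : ℝ → ℂ) (R L : ℝ) : ℝ :=
  1 / 2 * ∑ p ∈ ball G (R * L), ∑ k ∈ Finset.range (KK G (R * L)), ‖amp G a L p k‖ ^ 2

theorem amp_sq (h : Ok G κ) (a : ℝ → ℂ) {L : ℝ} (hL : 0 < L) (p : G.P) (k : ℕ) :
    ‖amp G a L p k‖ ^ 2 = 16 / L ^ 2 * (G.len p * (G.len p / G.tw p (k + 1))) *
      ‖a (((k : ℝ) + 1) * G.len p / L)‖ ^ 2 := by
  rw [amp_norm h a hL, mul_pow, mul_pow, div_pow, div_pow, Real.sq_sqrt (tw_pos h p (by omega)).le]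
  ring

theorem Vr_bound (h : Ok G κ) {a : ℝ → ℂ} {A R : ℝ} (hA : ∀ s, ‖a s‖ ≤ A) :
    ∃ C : ℝ, 0 ≤ C ∧ ∀ L : ℝ, 1 ≤ L →
      |Vr G a R L - 8 * (1 / L * ∑ p ∈ ball G (R * L), w G p * (G.len p / L * ‖a (G.len p / L)‖ ^ 2))|
        ≤ C * (Psi G (R * L) / L ^ 2) := by
  obtain ⟨r0, hr0, hr1, hr⟩ := exists_r0 h
  have hk := h.kpos
  have hA0 : 0 ≤ A := (norm_nonneg _).trans (hA 0)
  have h1r : 0 < 1 - r0 := by linarith
  refine ⟨8 * A ^ 2 * (1 / κ * (1 / (1 - r0))), by positivity, fun L hL => ?_⟩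
  have hL0 : 0 < L := by linarith
  -- each `p`
  have key : ∀ p ∈ ball G (R * L), |1 / 2 * ∑ k ∈ Finset.range (KK G (R * L)), ‖amp G a L p k‖ ^ 2
      - 8 * (1 / L * (w G p * (G.len p / L * ‖a (G.len p / L)‖ ^ 2)))|
        ≤ 8 * A ^ 2 * (1 / κ * (1 / (1 - r0))) / L ^ 2 * w G p := by
    intro p hp
    have hp0 := h.pos p
    have hw := w_pos h p
    have hx0 : 0 < κ * G.len p := by positivity
    have e0 : ‖amp G a L p 0‖ ^ 2 = 2 * (8 * (1 / L * (w G p * (G.len p / L *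
        ‖a (G.len p / L)‖ ^ 2)))) := by
      rw [amp_sq h a hL0]
      unfold w
      simp only [zero_add, Nat.cast_zero, one_mul]
      ring
    -- the bound of the repetitions
    have hrep : ∀ k, ‖amp G a L p (k + 1)‖ ^ 2 ≤ 16 / L ^ 2 * A ^ 2 * (G.len p * w G p *
        Real.exp (-(κ * G.len p))) * Real.exp (-(κ * G.len p)) ^ k := by
      intro k
      rw [amp_sq h a hL0]
      have h1 := rep_le h p (k + 1)
      have h2 := hA ((((k + 1 : ℕ) : ℝ) + 1) * G.len p / L)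
      have h3 : 0 ≤ G.len p / G.tw p (k + 1 + 1) :=
        div_nonneg hp0.le (tw_pos h p (by omega)).le
      calc 16 / L ^ 2 * (G.len p * (G.len p / G.tw p (k + 1 + 1))) *
            ‖a ((((k + 1 : ℕ) : ℝ) + 1) * G.len p / L)‖ ^ 2
          ≤ 16 / L ^ 2 * (G.len p * (w G p * Real.exp (-(κ * G.len p)) ^ (k + 1))) * A ^ 2 := by
            gcongr
        _ = _ := by ring
    have hxe : G.len p * Real.exp (-(κ * G.len p)) ≤ 1 / κ := by
      have h1 := Real.add_one_le_exp (κ * G.len p)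
      rw [Real.exp_neg, ← div_eq_mul_inv, div_le_div_iff₀ (Real.exp_pos _) hk]
      linarith
    have hgs : ∀ K : ℕ, ∑ k ∈ Finset.range K, ‖amp G a L p (k + 1)‖ ^ 2
        ≤ 16 * A ^ 2 * (1 / κ * (1 / (1 - r0))) / L ^ 2 * w G p := by
      intro K
      refine (Finset.sum_le_sum fun k _ => hrep k).trans ?_
      rw [← Finset.mul_sum]
      have h1 := geo_sum_le (Real.exp_pos (-(κ * G.len p))).le (hr p) hr1 K
      calc 16 / L ^ 2 * A ^ 2 * (G.len p * w G p * Real.exp (-(κ * G.len p))) *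
            ∑ k ∈ Finset.range K, Real.exp (-(κ * G.len p)) ^ k
          = 16 / L ^ 2 * A ^ 2 * w G p * ((G.len p * Real.exp (-(κ * G.len p))) *
            ∑ k ∈ Finset.range K, Real.exp (-(κ * G.len p)) ^ k) := by ring
        _ ≤ 16 / L ^ 2 * A ^ 2 * w G p * (1 / κ * (1 / (1 - r0))) := by
            have h5 : 0 ≤ ∑ k ∈ Finset.range K, Real.exp (-(κ * G.len p)) ^ k :=
              Finset.sum_nonneg fun k _ => pow_nonneg (Real.exp_pos _).le k
            gcongr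
        _ = _ := by ring
    rcases hK : KK G (R * L) with _ | K
    · -- no repetition, nothing
      have h1 := KK_spec h (R * L) p
      rw [hK] at h1
      have h2 := (mem_ball h).1 hp
      simp at h1
      linarith
    · rw [Finset.sum_range_succ', e0]
      have h2 := hgs K
      have h3 : 0 ≤ ∑ k ∈ Finset.range K, ‖amp G a L p (k + 1)‖ ^ 2 :=
        Finset.sum_nonneg fun k _ => by positivity
      rw [abs_of_nonneg (by linarith)]
      have h4 : 8 * A ^ 2 * (1 / κ * (1 / (1 - r0))) / L ^ 2 * w G p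
        = 1 / 2 * (16 * A ^ 2 * (1 / κ * (1 / (1 - r0))) / L ^ 2 * w G p) := by ring
      rw [h4]
      linarith
  unfold Vr
  rw [Finset.mul_sum, Finset.mul_sum, Finset.mul_sum, ← Finset.sum_sub_distrib]
  refine (Finset.abs_sum_le_sum_abs _ _).trans ((Finset.sum_le_sum key).trans (le_of_eq ?_))
  unfold Psi
  rw [← Finset.mul_sum]
  ring

theorem vg_eq {a : ℝ → ℂ} {R : ℝ} (hR : 0 ≤ R) (hR0 : ∀ s, R < s → a s = 0) :
    vg a = 4 * ∫ s in (0 : ℝ)..R, s * ‖a s‖ ^ 2 := by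
  unfold vg
  rw [intervalIntegral.integral_of_le hR]
  congr 1
  refine setIntegral_eq_of_subset_of_forall_sdiff_eq_zero measurableSet_Ioi Ioc_subset_Ioi_self ?_
  intro s hs
  have h1 : R < s := by
    by_contra h2
    exact hs.2 ⟨hs.1, not_lt.mp h2⟩
  rw [hR0 s h1]
  simp

theorem Vr_tendsto (h : Ok G κ) (hS : SumRule G) {a : ℝ → ℂ} (ha : ContDiff ℝ 1 a) {R : ℝ}
    (hR : 0 ≤ R) (hR0 : ∀ s, R ≤ s → a s = 0) {A : ℝ} (hA : ∀ s, ‖a s‖ ≤ A) :
    Tendsto (fun L => Vr G a R L) atTop (𝓝 (vg a)) := by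
  obtain ⟨C, hC, hb⟩ := Vr_bound (R := R) h hA
  obtain ⟨M, hM, hg⟩ := Psi_growth h hS
  have hφ : ContDiff ℝ 1 fun s : ℝ => s * ‖a s‖ ^ 2 := contDiff_id.mul (ha.norm_sq ℝ)
  have h1 := (abel_limit h hS hφ hR (fun s hs => by rw [hR0 s hs]; simp)).const_mul 8
  have h2 : Tendsto (fun L : ℝ => C * (Psi G (R * L) / L ^ 2)) atTop (𝓝 0) := by
    have h3 : Tendsto (fun L : ℝ => C * (M * (1 + R) / L)) atTop (𝓝 0) := by
      have : Tendsto (fun L : ℝ => M * (1 + R) / L) atTop (𝓝 0) :=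
        tendsto_const_nhds.div_atTop tendsto_id
      simpa using this.const_mul C
    refine squeeze_zero' ?_ ?_ h3
    · filter_upwards [eventually_gt_atTop 0] with L hL
      have := Psi_nonneg h (R * L)
      positivity
    · filter_upwards [eventually_ge_atTop 1] with L hL
      have hL0 : 0 < L := by linarith
      refine mul_le_mul_of_nonneg_left ?_ hC
      rw [div_le_div_iff₀ (by positivity) hL0]
      have h4 := hg (R * L) (by positivity)
      have h5 : 0 < M * L := by positivity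
      have h6 : M * (1 + R * L) ≤ M * (1 + R) * L := by nlinarith
      have h7 : Psi G (R * L) * L ≤ M * (1 + R) * L * L := by
        refine mul_le_mul_of_nonneg_right (h4.trans h6) hL0.le
      linarith
  have h4 : Tendsto (fun L => Vr G a R L - 8 * (1 / L * ∑ p ∈ ball G (R * L), w G p *
      (G.len p / L * ‖a (G.len p / L)‖ ^ 2))) atTop (𝓝 0) := by
    refine squeeze_zero_norm' ?_ h2
    filter_upwards [eventually_ge_atTop 1] with L hL
    exact hb L hL
  have h5 := h4.add h1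
  simp only [sub_add_cancel, zero_add] at h5
  rw [vg_eq hR (fun s hs => hR0 s hs.le)]
  convert h5 using 2
  ring

end GWin
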