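import Pool.Agent.LibGWa.U3
import Pool.Agent.LibGWa.V4

/-! From the statistic to the sum over the closed geodesics. -/

open MeasureTheory Set Filter Topology FG33
open scoped ContDiff

namespace GWin

/-- The trace formula (unoriented form), with the error that is small up to a multiple of the
Ehrenfest time. -/
def Trace (G : Geo) (lev : ℕ → ℝ) : Prop :=
  ∃ C : ℝ, 0 < C ∧ ∀ (b : ℝ → ℂ) (ρ B τ : ℝ), ContDiff ℝ ∞ b →
    (∀ t, b (-t) = (starRingEnd ℂ) (b t)) → 0 ≤ ρ → (∀ t, ρ < |t| → b t = 0) → 1 ≤ τ →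
    (∀ j ≤ 4, ∀ t, ‖iteratedDeriv j b t‖ ≤ B) →
    |∑' n, hh b τ (lev n) - 1 / (2 * Real.pi) * (∫ y in Ioi (0 : ℝ), hh b τ y * y) -
      2 * ∑ᶠ q ∈ {q : G.P × ℕ | 1 ≤ q.2}, gg b τ (q.2 * G.len q.1) *
        (G.len q.1 / √(G.tw q.1 q.2))| ≤ C * Real.exp (C * ρ) * τ ^ (-(1 / 2) : ℝ) * B

/-- The sum over the closed geodesics. -/
noncomputable def Osc (G : Geo) (a : ℝ → ℂ) (R L τ : ℝ) : ℝ :=
  ∑ p ∈ ball G (R * L), ∑ k ∈ Finset.range (KK G (R * L)),
    (amp G a L p k * Complex.exp (-((τ * (((k : ℝ) + 1) * G.len p) : ℝ) : ℂ) * Complex.I)).re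

theorem sc_iter {a : ℝ → ℂ} (ha : IsAmp a) : ∃ B : ℝ, 0 < B ∧ ∀ L : ℝ, 1 ≤ L → ∀ j ≤ 4, ∀ t,
    ‖iteratedDeriv j (sc a L) t‖ ≤ B := by
  -- bounds of the derivatives of `a`
  have h1 : ∀ j : ℕ, ∃ B : ℝ, ∀ t, ‖iteratedDeriv j a t‖ ≤ B := by
    intro j
    have hc : Continuous (iteratedDeriv j a) :=
      ha.smooth.continuous_iteratedDeriv j (by exact_mod_cast le_top)
    have hs : HasCompactSupport (iteratedDeriv j a) := by
      have h2 := ha.supp.iteratedFDeriv (𝕜 := ℝ) j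
      have h3 : iteratedDeriv j a = fun t => iteratedFDeriv ℝ j a t (fun _ => 1) := by
        ext t; rw [iteratedDeriv_eq_iteratedFDeriv]
      rw [h3]
      exact h2.comp_left (g := fun m => m (fun _ => (1 : ℝ))) (by simp)
    obtain ⟨x, hx⟩ := hc.norm.exists_forall_ge_of_hasCompactSupport hs.norm
    exact ⟨_, hx⟩
  choose B hB using h1
  have hB0 : ∀ j, 0 ≤ B j := fun j => (norm_nonneg _).trans (hB j 0)
  refine ⟨2 * ∑ j ∈ Finset.range 5, B j + 1, by
    have := Finset.sum_nonneg (s := Finset.range 5) fun j _ => hB0 j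
    positivity, fun L hL j hj t => ?_⟩
  have hL0 : 0 < L := by linarith
  have e1 : sc a L = fun t => ((2 / L : ℝ) : ℂ) * (fun s => a (L⁻¹ * s)) t := by
    ext t
    unfold sc
    rw [div_eq_inv_mul t L]
  have e2 : iteratedDeriv j (sc a L) t = ((2 / L : ℝ) : ℂ) * ((L⁻¹ ^ j : ℝ) •
      iteratedDeriv j a (L⁻¹ * t)) := by
    have hcd : ContDiff ℝ j a := ha.smooth.of_le (by exact_mod_cast le_top)
    rw [e1, iteratedDeriv_const_mul]
    · congr 1
      have := congrFun (iteratedDeriv_comp_const_smul hcd L⁻¹) t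
      simpa only [smul_eq_mul] using this
    · exact (hcd.comp (contDiff_const.mul contDiff_id)).contDiffAt
  rw [e2, norm_mul, norm_smul, Complex.norm_real, Real.norm_of_nonneg (by positivity),
    Real.norm_of_nonneg (by positivity)]
  have h2 : 2 / L ≤ 2 := by rw [div_le_iff₀ hL0]; linarith
  have h3 : L⁻¹ ^ j ≤ 1 := pow_le_one₀ (by positivity) (inv_le_one_of_one_le₀ hL)
  have h4 := hB j (L⁻¹ * t)
  have h5 : B j ≤ ∑ j ∈ Finset.range 5, B j :=
    Finset.single_le_sum (fun j _ => hB0 j) (by simp; omega)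
  calc 2 / L * (L⁻¹ ^ j * ‖iteratedDeriv j a (L⁻¹ * t)‖) ≤ 2 * (1 * B j) := by gcongr
    _ ≤ _ := by linarith

theorem osc_eq {G : Geo} {κ : ℝ} (h : Ok G κ) {a : ℝ → ℂ} {R : ℝ} (hR : ∀ s, R < |s| → a s = 0)
    {L : ℝ} (hL : 0 < L) (τ : ℝ) :
    2 * ∑ᶠ q ∈ {q : G.P × ℕ | 1 ≤ q.2}, gg (sc a L) τ (q.2 * G.len q.1) *
        (G.len q.1 / √(G.tw q.1 q.2)) = Osc G a R L τ := by
  have h1 := pairs_sum h (KK_spec h (R * L)) (fun (p : G.P) (k : ℕ) =>
    gg (sc a L) τ (k * G.len p) * (G.len p / √(G.tw p k))) (by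
      intro p k hk h2
      have h3 : sc a L (k * G.len p) = 0 := by
        unfold sc
        rw [hR, mul_zero]
        have h4 := h.pos p
        rw [abs_of_nonneg (by positivity), lt_div_iff₀ hL]
        exact h2
      unfold gg
      rw [h3, zero_mul, Complex.zero_re, zero_mul])
  rw [h1, Finset.mul_sum]
  unfold Osc
  refine Finset.sum_congr rfl fun p _ => ?_
  rw [Finset.mul_sum]
  refine Finset.sum_congr rfl fun k _ => ?_
  unfold gg sc amp
  have e1 : (((4 / L * (G.len p / √(G.tw p (k + 1))) : ℝ) : ℂ) *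
      a (((k : ℝ) + 1) * G.len p / L) * Complex.exp (-((τ * (((k : ℝ) + 1) * G.len p) : ℝ) : ℂ) *
        Complex.I)) = ((2 * (G.len p / √(G.tw p (k + 1))) : ℝ) : ℂ) * (((2 / L : ℝ) : ℂ) *
        a (((k + 1 : ℕ) : ℝ) * G.len p / L) *
          Complex.exp (-((τ * (((k + 1 : ℕ) : ℝ) * G.len p) : ℝ) : ℂ) * Complex.I)) := by
    push_cast
    ring
  rw [e1, Complex.re_ofReal_mul]
  ring

theorem reduction {G : Geo} {κ : ℝ} (h : Ok G κ) {lev : ℕ → ℝ} (hl : Lev lev)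
    (hT : Trace G lev) {a : ℝ → ℂ} (ha : IsAmp a) {R : ℝ} (hR0 : 0 ≤ R)
    (hR : ∀ s, R < |s| → a s = 0) : ∃ C : ℝ, 0 < C ∧ ∀ L τ : ℝ, 1 ≤ L → 1 ≤ τ →
      |st lev a L τ - Osc G a R L τ| ≤ C / L + C * Real.exp (C * L) * τ ^ (-(1 / 2) : ℝ) := by
  obtain ⟨C1, hC1, h1⟩ := hT
  obtain ⟨C2, hC2, h2⟩ := weyl_term ha
  obtain ⟨C3, hC3, h3⟩ := refl_sum ha hl
  obtain ⟨B, hB, h4⟩ := sc_iter ha
  refine ⟨C1 * B + C1 * R + C2 + C3 + 1, by positivity, fun L τ hL hτ => ?_⟩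
  have hL0 : 0 < L := by linarith
  have h5 := h1 (sc a L) (R * L) B τ ?_ ?_ (by positivity) ?_ hτ (h4 L hL)
  · rw [osc_eq h hR hL0, hh_sum ha hl hL hτ] at h5
    have h6 := h2 L τ hL hτ
    have h7 := (h3 L τ hL hτ).2
    set S1 := ∑' n, tf a (L * (lev n - τ)) with hS1
    set S2 := ∑' n, tf a (L * (-lev n - τ)) with hS2
    set W := 1 / (2 * Real.pi) * (∫ y in Ioi (0 : ℝ), hh (sc a L) τ y * y) with hW
    set V := τ / (2 * Real.pi * L) * ∫ y, tf a y with hV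
    have e1 : st lev a L τ - Osc G a R L τ = (S1 + S2 - W - Osc G a R L τ) + (W - V) - S2 := by
      unfold st
      rw [← hS1, ← hV]
      ring
    rw [e1]
    refine ((abs_sub _ _).trans (add_le_add ((abs_add_le _ _).trans (add_le_add h5 h6)) h7)).trans ?_
    set D := C1 * B + C1 * R + C2 + C3 + 1 with hD
    have hτ0 : 0 ≤ τ ^ (-(1 / 2) : ℝ) := by positivity
    have h8 : C1 * Real.exp (C1 * (R * L)) * τ ^ (-(1 / 2) : ℝ) * B
        ≤ D * Real.exp (D * L) * τ ^ (-(1 / 2) : ℝ) := by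
      have h9 : Real.exp (C1 * (R * L)) ≤ Real.exp (D * L) := by
        rw [Real.exp_le_exp, ← mul_assoc]
        refine mul_le_mul_of_nonneg_right ?_ hL0.le
        have : 0 ≤ C1 * B := by positivity
        linarith
      have h10 : C1 * B ≤ D := by
        have : 0 ≤ C1 * R := by positivity
        linarith
      calc C1 * Real.exp (C1 * (R * L)) * τ ^ (-(1 / 2) : ℝ) * B
          = C1 * B * Real.exp (C1 * (R * L)) * τ ^ (-(1 / 2) : ℝ) := by ring
        _ ≤ D * Real.exp (D * L) * τ ^ (-(1 / 2) : ℝ) := by gcongr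
    have h9 : C2 / L + C3 / L ≤ D / L := by
      rw [← add_div]
      have h11 : 0 ≤ C1 * R := by positivity
      have h12 : 0 ≤ C1 * B := by positivity
      gcongr
      linarith
    linarith
  · unfold sc
    exact contDiff_const.mul (ha.smooth.comp (contDiff_id.div_const L))
  · intro t
    unfold sc
    rw [neg_div, ha.herm, map_mul, Complex.conj_ofReal]
  · intro t ht
    unfold sc
    rw [hR, mul_zero]
    rw [abs_div, abs_of_pos hL0, lt_div_iff₀ hL0]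
    exact ht

end GWin
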