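import Pool.Agent.LibGWa.V1

/-! The sum rule for the primitive closed geodesics. -/

open MeasureTheory Set Filter Topology

namespace GWin

variable {G : Geo} {κ : ℝ}

theorem Psi_growth (h : Ok G κ) (hS : SumRule G) : ∃ M : ℝ, 0 < M ∧ ∀ t : ℝ, 0 ≤ t →
    Psi G t ≤ M * (1 + t) := by
  obtain ⟨C, hC, hb⟩ := full_bounds h
  have h1 := (hS.eventually (gt_mem_nhds (show (1 / 2 : ℝ) < 1 by norm_num)))
  obtain ⟨T, hT⟩ := (h1.and (eventually_gt_atTop 0)).exists_forall_of_atTop
  have hT0 : 0 < T := (hT T le_rfl).2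
  refine ⟨1 + Psi G T, by have := Psi_nonneg h T; positivity, fun t ht => ?_⟩
  have h0 := Psi_nonneg h T
  rcases le_total t T with h2 | h2
  · have h3 := Psi_mono h h2
    nlinarith
  · have h3 := (hT t h2).1
    have h4 : 0 < t := hT0.trans_le h2
    rw [div_lt_one h4] at h3
    have h5 := (hb t).1
    nlinarith

/-- The exponentially weighted sum is of lower order. -/
theorem exp_sum_small (h : Ok G κ) (hS : SumRule G) :
    Tendsto (fun t : ℝ => (∑ p ∈ ball G t, w G p * Real.exp (-(κ * G.len p))) / t) atTop (𝓝 0) := by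
  obtain ⟨M, hM, hg⟩ := Psi_growth h hS
  have hk := h.kpos
  rw [Metric.tendsto_atTop]
  intro ε hε
  -- choose s
  have h1 : Tendsto (fun s : ℝ => Real.exp (-(κ * s)) * (2 * M)) atTop (𝓝 0) := by
    have h2 : Tendsto (fun s : ℝ => Real.exp (-(κ * s))) atTop (𝓝 0) :=
      Real.tendsto_exp_neg_atTop_nhds_zero.comp (tendsto_id.const_mul_atTop hk)
    simpa using h2.mul_const (2 * M)
  obtain ⟨s, hs, hs0⟩ := ((h1.eventually (gt_mem_nhds (show (0 : ℝ) < ε / 2 by positivity))).and
    (eventually_ge_atTop 0)).exists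
  have h3 := Psi_nonneg h s
  refine ⟨max (max 1 s) (2 * (Psi G s + 1) / ε), fun t ht => ?_⟩
  have ht1 : 1 ≤ t := (le_max_left _ _).trans ((le_max_left _ _).trans ht)
  have hts : s ≤ t := (le_max_right _ _).trans ((le_max_left _ _).trans ht)
  have ht2 : 2 * (Psi G s + 1) / ε ≤ t := (le_max_right _ _).trans ht
  have ht0 : 0 < t := by linarith
  have hnn : 0 ≤ ∑ p ∈ ball G t, w G p * Real.exp (-(κ * G.len p)) :=
    Finset.sum_nonneg fun p _ => mul_nonneg (w_pos h p).le (Real.exp_pos _).le
  rw [Real.dist_eq, sub_zero, abs_of_nonneg (div_nonneg hnn ht0.le), div_lt_iff₀ ht0]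
  have h4 : ∑ p ∈ ball G t, w G p * Real.exp (-(κ * G.len p))
      ≤ Psi G s + Real.exp (-(κ * s)) * Psi G t := by
    classical
    rw [← Finset.sum_sdiff (ball_mono h hts), add_comm]
    refine add_le_add ?_ ?_
    · refine Finset.sum_le_sum fun p _ => ?_
      have h5 := w_pos h p
      have h6 : Real.exp (-(κ * G.len p)) ≤ 1 := by
        rw [Real.exp_le_one_iff]
        have := h.pos p
        have : 0 < κ * G.len p := by positivity
        linarith
      nlinarith
    · have h7 : ∑ p ∈ ball G t \ ball G s, w G p * Real.exp (-(κ * G.len p))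
          ≤ ∑ p ∈ ball G t \ ball G s, Real.exp (-(κ * s)) * w G p := by
        refine Finset.sum_le_sum fun p hp => ?_
        rw [Finset.mem_sdiff, mem_ball h, mem_ball h, not_le] at hp
        have h5 := w_pos h p
        have h6 : Real.exp (-(κ * G.len p)) ≤ Real.exp (-(κ * s)) := by
          rw [Real.exp_le_exp]
          have := hp.2
          nlinarith
        nlinarith
      refine h7.trans ?_
      rw [← Finset.mul_sum]
      refine mul_le_mul_of_nonneg_left ?_ (Real.exp_pos _).le
      exact Finset.sum_le_sum_of_subset_of_nonneg Finset.sdiff_subset fun p _ _ => (w_pos h p).le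
  have h5 := hg t ht0.le
  have h6 : Real.exp (-(κ * s)) * Psi G t ≤ ε / 2 * t := by
    have h7 : Psi G t ≤ 2 * M * t := by nlinarith
    have h8 : Real.exp (-(κ * s)) * Psi G t ≤ Real.exp (-(κ * s)) * (2 * M * t) :=
      mul_le_mul_of_nonneg_left h7 (Real.exp_pos _).le
    have h9 : Real.exp (-(κ * s)) * (2 * M * t) = (Real.exp (-(κ * s)) * (2 * M)) * t := by ring
    rw [h9] at h8
    exact h8.trans (mul_le_mul_of_nonneg_right hs.le ht0.le)
  have h7 : Psi G s < ε / 2 * t := by
    rw [div_le_iff₀ hε] at ht2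
    linarith
  linarith

theorem Psi_tendsto (h : Ok G κ) (hS : SumRule G) :
    Tendsto (fun t : ℝ => Psi G t / t) atTop (𝓝 (1 / 2)) := by
  obtain ⟨C, hC, hb⟩ := full_bounds h
  have h1 := (exp_sum_small h hS).const_mul C
  have h2 := hS.sub h1
  rw [mul_zero, sub_zero] at h2
  refine tendsto_of_tendsto_of_tendsto_of_le_of_le' h2 hS ?_ ?_
  · filter_upwards [eventually_gt_atTop 0] with t ht
    have := (hb t).2
    rw [← mul_div_assoc, ← sub_div]
    exact div_le_div_of_nonneg_right (sub_le_iff_le_add.2 this) ht.le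
  · filter_upwards [eventually_gt_atTop 0] with t ht
    exact div_le_div_of_nonneg_right (hb t).1 ht.le

end GWin
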