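import Pool.Agent.LibGWa.U5

/-! Moments of the linear statistic. -/

open MeasureTheory Set Filter Topology FG33 Mes
open scoped ContDiff

namespace GWin

theorem Osc_cont (G : Geo) (a : ℝ → ℂ) (R L : ℝ) : Continuous (Osc G a R L) := by
  unfold Osc
  refine continuous_finsetSum _ fun p _ => continuous_finsetSum _ fun k _ => ?_
  refine Complex.continuous_re.comp (continuous_const.mul (Complex.continuous_exp.comp ?_))
  fun_prop

theorem pow_diff {x y ε : ℝ} (h : |x - y| ≤ ε) (hε : ε ≤ 1) (r : ℕ) :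
    |x ^ r - y ^ r| ≤ ε * (r * 2 ^ (2 * r)) * (1 + y ^ (2 * r)) := by
  have h0 : 0 ≤ ε := (abs_nonneg _).trans h
  have h1 := abs_pow_sub_pow_le x y r
  have h2 : max |x| |y| ≤ 1 + |y| := by
    refine max_le ?_ (by linarith)
    have := abs_sub_abs_le_abs_sub x y
    linarith
  have h3 : max |x| |y| ^ (r - 1) ≤ 2 ^ (2 * r) * (1 + y ^ (2 * r)) := by
    have h4 : max |x| |y| ^ (r - 1) ≤ (1 + |y|) ^ (r - 1) :=
      pow_le_pow_left₀ (le_max_of_le_left (abs_nonneg x)) h2 _
    have h5 : (1 + |y|) ^ (r - 1) ≤ (1 + |y|) ^ (2 * r) :=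
      pow_le_pow_right₀ (by have := abs_nonneg y; linarith) (by omega)
    have h6 : (1 + |y|) ^ (2 * r) ≤ 2 ^ (2 * r - 1) * (1 ^ (2 * r) + |y| ^ (2 * r)) :=
      add_pow_le zero_le_one (abs_nonneg y) _
    have h7 : (2 : ℝ) ^ (2 * r - 1) ≤ 2 ^ (2 * r) := pow_le_pow_right₀ (by norm_num) (by omega)
    have h8 : |y| ^ (2 * r) = y ^ (2 * r) := by rw [pow_mul, pow_mul, sq_abs]
    rw [one_pow, h8] at h6
    have h9 : 0 ≤ y ^ (2 * r) := by rw [pow_mul]; positivity
    calc max |x| |y| ^ (r - 1) ≤ 2 ^ (2 * r - 1) * (1 + y ^ (2 * r)) := h4.trans (h5.trans h6)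
      _ ≤ _ := by gcongr
  have h9 : 0 ≤ y ^ (2 * r) := by rw [pow_mul]; positivity
  calc |x ^ r - y ^ r| ≤ |x - y| * r * max |x| |y| ^ (r - 1) := h1
    _ ≤ ε * r * (2 ^ (2 * r) * (1 + y ^ (2 * r))) := by gcongr
    _ = _ := by ring

theorem st_moments {G : Geo} {κ : ℝ} (h : Ok G κ) (hSR : SumRule G) {lev : ℕ → ℝ}
    (hl : Lev lev) (hT : Trace G lev) {L : ℝ → ℝ}
    (hL : Tendsto L atTop atTop) (hL' : Tendsto (fun T => L T / Real.log T) atTop (𝓝 0))
    (hS : Sep G L) {a : ℝ → ℂ} (ha : IsAmp a) (r : ℕ) :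
    Tendsto (fun T => (1 / T) * ∫ u in T..2 * T, st lev a (L T) u ^ r) atTop
      (𝓝 (gaussMom (vg a) r)) := by
  obtain ⟨R, hR0, hR⟩ : ∃ R : ℝ, 0 ≤ R ∧ ∀ s, R ≤ |s| → a s = 0 := by
    obtain ⟨R, hR0, hR⟩ := ha.supp.isCompact.isBounded.exists_pos_norm_lt
    refine ⟨R, hR0.le, fun s hs => ?_⟩
    by_contra h0
    have := hR s (subset_tsupport a h0)
    rw [Real.norm_eq_abs] at this
    linarith
  obtain ⟨C, hC, hred⟩ := reduction h hl hT ha hR0 (fun s hs => hR s hs.le)
  have hO := osc_moments h hSR hL hL' hS ha hR0 hR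
  -- the error
  have hε1 : Tendsto (fun T : ℝ => C / L T) atTop (𝓝 0) := tendsto_const_nhds.div_atTop hL
  have hε2 : Tendsto (fun T : ℝ => C * Real.exp (C * L T) * T ^ (-(1 / 2) : ℝ)) atTop (𝓝 0) := by
    have h1 : Tendsto (fun T : ℝ => C * T ^ (-(1 / 4) : ℝ)) atTop (𝓝 0) := by
      have := (tendsto_rpow_neg_atTop (show (0 : ℝ) < 1 / 4 by norm_num)).const_mul C
      simpa using this
    refine squeeze_zero' ?_ ?_ h1
    · filter_upwards [eventually_gt_atTop 0] with T hT
      positivity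
    · have hsmall : ∀ᶠ T : ℝ in atTop, L T / Real.log T ≤ 1 / (4 * C) :=
        (hL'.eventually (gt_mem_nhds (by positivity))).mono fun _ h => h.le
      filter_upwards [hsmall, eventually_gt_atTop 1] with T h2 h3
      have hT0 : 0 < T := by linarith
      have hlog : 0 < Real.log T := Real.log_pos h3
      rw [div_le_iff₀ hlog] at h2
      have h4 : Real.exp (C * L T) ≤ T ^ (1 / 4 : ℝ) := by
        rw [Real.rpow_def_of_pos hT0, Real.exp_le_exp]
        calc C * L T ≤ C * (1 / (4 * C) * Real.log T) := by gcongr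
          _ = _ := by field_simp
      calc C * Real.exp (C * L T) * T ^ (-(1 / 2) : ℝ) ≤ C * T ^ (1 / 4 : ℝ) * T ^ (-(1 / 2) : ℝ) := by
            gcongr
        _ = C * T ^ (-(1 / 4) : ℝ) := by
            rw [mul_assoc, ← Real.rpow_add hT0]
            norm_num
  have hε := hε1.add hε2
  rw [add_zero] at hε
  have hbound : Tendsto (fun T => (C / L T + C * Real.exp (C * L T) * T ^ (-(1 / 2) : ℝ)) *
      (r * 2 ^ (2 * r)) * (1 + (1 / T) * ∫ u in T..2 * T, Osc G a R (L T) u ^ (2 * r))) atTop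
      (𝓝 0) := by
    have := (hε.mul_const ((r : ℝ) * 2 ^ (2 * r))).mul ((hO (2 * r)).const_add 1)
    simpa using this
  have h0 : Tendsto (fun T => (1 / T) * (∫ u in T..2 * T, st lev a (L T) u ^ r) -
      (1 / T) * ∫ u in T..2 * T, Osc G a R (L T) u ^ r) atTop (𝓝 0) := by
    refine squeeze_zero_norm' ?_ hbound
    filter_upwards [hε.eventually (gt_mem_nhds one_pos), hL.eventually (eventually_ge_atTop 1),
      eventually_ge_atTop 1] with T h1 h2 h3
    have hT0 : 0 < T := by linarith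
    have hL0 : 0 < L T := by linarith
    set ε := C / L T + C * Real.exp (C * L T) * T ^ (-(1 / 2) : ℝ) with hεd
    have hc1 : Continuous fun u => st lev a (L T) u ^ r := (st_cont ha hl hL0).pow r
    have hc2 : Continuous fun u => Osc G a R (L T) u ^ r := (Osc_cont G a R (L T)).pow r
    have hc3 : Continuous fun u => Osc G a R (L T) u ^ (2 * r) :=
      (Osc_cont G a R (L T)).pow (2 * r)
    rw [← mul_sub, ← intervalIntegral.integral_sub (hc1.intervalIntegrable _ _)
      (hc2.intervalIntegrable _ _), Real.norm_eq_abs, abs_mul, abs_of_pos (by positivity)]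
    have h4 : |∫ u in T..2 * T, (st lev a (L T) u ^ r - Osc G a R (L T) u ^ r)|
        ≤ ∫ u in T..2 * T, ε * (r * 2 ^ (2 * r)) * (1 + Osc G a R (L T) u ^ (2 * r)) := by
      rw [← Real.norm_eq_abs]
      refine intervalIntegral.norm_integral_le_of_norm_le (by linarith) ?_
        ((continuous_const.mul (continuous_const.add hc3)).intervalIntegrable _ _)
      refine Eventually.of_forall fun u hu => ?_
      rw [Real.norm_eq_abs]
      refine pow_diff ?_ h1.le r
      refine (hred (L T) u h2 (h3.trans hu.1.le)).trans ?_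
      have h5 : u ^ (-(1 / 2) : ℝ) ≤ T ^ (-(1 / 2) : ℝ) :=
        Real.rpow_le_rpow_of_nonpos hT0 hu.1.le (by norm_num)
      rw [hεd]
      gcongr
    calc 1 / T * |∫ u in T..2 * T, (st lev a (L T) u ^ r - Osc G a R (L T) u ^ r)|
        ≤ 1 / T * ∫ u in T..2 * T, ε * (r * 2 ^ (2 * r)) * (1 + Osc G a R (L T) u ^ (2 * r)) := by
          gcongr
      _ = _ := by
        rw [intervalIntegral.integral_const_mul, intervalIntegral.integral_add
          (continuous_const.intervalIntegrable _ _) (hc3.intervalIntegrable _ _),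
          intervalIntegral.integral_const, smul_eq_mul]
        field_simp
        ring
  have h1 := h0.add (hO r)
  simpa using h1

end GWin
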