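import Pool.Agent.LibFG33.Defs

/-! The test functions. -/

open MeasureTheory Set Filter Topology FG33
open scoped ContDiff FourierTransform SchwartzMap

namespace GWin

theorem tf_eq_fourier {a : ℝ → ℂ} (ha : IsAmp a) (y : ℝ) :
    tf a y = (𝓕 (ha.supp.toSchwartzMap ha.smooth) (-(y / (2 * Real.pi)))).re := by
  rw [SchwartzMap.fourier_coe]
  unfold tf
  rw [Real.fourier_eq]
  congr 2
  ext t
  rw [Circle.smul_def, smul_eq_mul, mul_comm, HasCompactSupport.toSchwartzMap_toFun]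
  congr 1
  rw [Real.fourierChar_apply]
  congr 1
  simp only [RCLike.inner_apply, conj_trivial]
  push_cast
  have : (Real.pi : ℂ) ≠ 0 := by exact_mod_cast Real.pi_ne_zero
  field_simp

theorem tf_decay {a : ℝ → ℂ} (ha : IsAmp a) : ∃ B : ℝ, 0 < B ∧ ∀ y, |tf a y| ≤ B / (1 + |y|) ^ 4 := by
  set S := 𝓕 (ha.supp.toSchwartzMap ha.smooth) with hS
  set C := 2 ^ 4 * (Finset.Iic (4, 0)).sup (fun m : ℕ × ℕ => SchwartzMap.seminorm ℝ m.1 m.2) S
    with hC
  have h1 : ∀ x : ℝ, (1 + ‖x‖) ^ 4 * ‖S x‖ ≤ C := by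
    intro x
    have := SchwartzMap.one_add_le_sup_seminorm_apply (𝕜 := ℝ) (m := (4, 0)) (k := 4) (n := 0)
      le_rfl le_rfl S x
    simpa using this
  have hC0 : 0 ≤ C := le_trans (by positivity) (h1 0)
  have hpi := Real.pi_gt_three
  refine ⟨(2 * Real.pi) ^ 4 * (C + 1), by positivity, fun y => ?_⟩
  have h2 := h1 (-(y / (2 * Real.pi)))
  rw [tf_eq_fourier ha, le_div_iff₀ (by positivity)]
  have h3 : |(S (-(y / (2 * Real.pi)))).re| ≤ ‖S (-(y / (2 * Real.pi)))‖ := Complex.abs_re_le_norm _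
  have h4 : 1 + |y| ≤ (2 * Real.pi) * (1 + ‖-(y / (2 * Real.pi))‖) := by
    rw [norm_neg, norm_div, Real.norm_eq_abs, Real.norm_eq_abs, abs_of_pos (by positivity :
      0 < 2 * Real.pi)]
    have h5 : 2 * Real.pi * (1 + |y| / (2 * Real.pi)) = 2 * Real.pi + |y| := by
      field_simp
    rw [h5]
    linarith
  calc |(S (-(y / (2 * Real.pi)))).re| * (1 + |y|) ^ 4
      ≤ ‖S (-(y / (2 * Real.pi)))‖ * ((2 * Real.pi) * (1 + ‖-(y / (2 * Real.pi))‖)) ^ 4 := by gcongr
    _ = (2 * Real.pi) ^ 4 * ((1 + ‖-(y / (2 * Real.pi))‖) ^ 4 * ‖S (-(y / (2 * Real.pi)))‖) := by ring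
    _ ≤ (2 * Real.pi) ^ 4 * C := by gcongr
    _ ≤ _ := by nlinarith [show (0:ℝ) < (2 * Real.pi) ^ 4 by positivity]

theorem tf_cont {a : ℝ → ℂ} (ha : IsAmp a) : Continuous (tf a) := by
  have h1 : tf a = fun y => (𝓕 (ha.supp.toSchwartzMap ha.smooth) (-(y / (2 * Real.pi)))).re := by
    ext y; exact tf_eq_fourier ha y
  rw [h1]
  exact Complex.continuous_re.comp ((SchwartzMap.continuous _).comp (by fun_prop))

theorem tf_int {a : ℝ → ℂ} (ha : IsAmp a) : Integrable (tf a) := by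
  obtain ⟨B, hB, hb⟩ := tf_decay ha
  have h1 : Integrable fun x : ℝ => B * (1 + ‖x‖) ^ (-(2 : ℝ)) :=
    (integrable_one_add_norm (μ := (volume : Measure ℝ)) (by simp)).const_mul B
  refine h1.mono' (tf_cont ha).aestronglyMeasurable (Eventually.of_forall fun x => ?_)
  rw [Real.norm_eq_abs]
  refine (hb x).trans ?_
  rw [Real.rpow_neg (by positivity), div_eq_mul_inv, Real.norm_eq_abs]
  refine mul_le_mul_of_nonneg_left ?_ hB.le
  refine inv_anti₀ (by positivity) ?_
  norm_cast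
  exact pow_le_pow_right₀ (by have := abs_nonneg x; linarith) (by norm_num)

theorem tf_int1 {a : ℝ → ℂ} (ha : IsAmp a) : Integrable fun y => |y| * |tf a y| := by
  obtain ⟨B, hB, hb⟩ := tf_decay ha
  have h1 : Integrable fun x : ℝ => B * (1 + ‖x‖) ^ (-(3 : ℝ)) :=
    (integrable_one_add_norm (μ := (volume : Measure ℝ)) (by simp)).const_mul B
  refine h1.mono' (continuous_abs.mul (tf_cont ha).abs).aestronglyMeasurable
    (Eventually.of_forall fun x => ?_)
  rw [Real.norm_eq_abs, abs_mul, abs_abs, abs_abs]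
  have h2 := abs_nonneg x
  have h3 : |x| * |tf a x| ≤ (1 + |x|) * (B / (1 + |x|) ^ 4) := by
    gcongr
    · linarith
    · exact hb x
  refine h3.trans (le_of_eq ?_)
  rw [Real.rpow_neg (by positivity), Real.norm_eq_abs]
  norm_cast
  field_simp

/-- `∫ a (t) e ^ {i t y} dt` is real. -/
theorem tf_real {a : ℝ → ℂ} (ha : IsAmp a) (y : ℝ) :
    ∫ t, a t * Complex.exp (Complex.I * (t * y : ℝ)) = (tf a y : ℂ) := by
  have h1 : (starRingEnd ℂ) (∫ t, a t * Complex.exp (Complex.I * (t * y : ℝ)))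
      = ∫ t, a t * Complex.exp (Complex.I * (t * y : ℝ)) := by
    rw [← integral_conj]
    rw [← integral_neg_eq_self (fun t => a t * Complex.exp (Complex.I * (t * y : ℝ))) volume]
    refine integral_congr_ae (Eventually.of_forall fun t => ?_)
    dsimp only
    rw [map_mul, ← Complex.exp_conj, ha.herm]
    congr 2
    simp
  unfold tf
  rw [Complex.conj_eq_iff_re.1 h1]

end GWin
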