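import Pool.Agent.LibGWa.U1

/-! The even test function of the trace formula. -/

open MeasureTheory Set Filter Topology FG33
open scoped ContDiff

namespace GWin

/-- `g (t) = Re (e ^ {-i τ t} b (t))`. -/
noncomputable def gg (b : ℝ → ℂ) (τ t : ℝ) : ℝ :=
  (b t * Complex.exp (-((τ * t : ℝ) : ℂ) * Complex.I)).re

/-- `h (λ) = ∫ g (t) cos (λ t) dt`. -/
noncomputable def hh (b : ℝ → ℂ) (τ y : ℝ) : ℝ := ∫ t, gg b τ t * Real.cos (y * t)

/-- The rescaled amplitude. -/
noncomputable def sc (a : ℝ → ℂ) (L t : ℝ) : ℂ := ((2 / L : ℝ) : ℂ) * a (t / L)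

theorem sc_int {a : ℝ → ℂ} (ha : IsAmp a) {L : ℝ} (hL : 0 < L) (z : ℝ) :
    ∫ t, sc a L t * Complex.exp (Complex.I * (t * z : ℝ)) = ((2 * tf a (L * z) : ℝ) : ℂ) := by
  have h1 : (fun t : ℝ => sc a L t * Complex.exp (Complex.I * (t * z : ℝ)))
      = fun t : ℝ => (fun s : ℝ => ((2 / L : ℝ) : ℂ) * (a s * Complex.exp (Complex.I * (s * (L * z) : ℝ))))
        (t / L) := by
    ext t
    unfold sc
    dsimp only
    rw [mul_assoc]
    congr 4
    have := hL.ne'
    field_simp
  rw [h1, Measure.integral_comp_div (fun s : ℝ => ((2 / L : ℝ) : ℂ) *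
    (a s * Complex.exp (Complex.I * (s * (L * z) : ℝ)))) L, integral_const_mul, tf_real ha,
    abs_of_pos hL]
  have := hL.ne'
  rw [Complex.real_smul]
  push_cast
  have h2 : (L : ℂ) ≠ 0 := by exact_mod_cast this
  field_simp

theorem sc_integrable {a : ℝ → ℂ} (ha : IsAmp a) {L : ℝ} (hL : 0 < L) (z : ℝ) :
    Integrable fun t : ℝ => sc a L t * Complex.exp (Complex.I * (t * z : ℝ)) := by
  have h1 : Continuous fun t : ℝ => sc a L t * Complex.exp (Complex.I * (t * z : ℝ)) := by
    unfold sc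
    have := ha.smooth.continuous
    fun_prop
  refine h1.integrable_of_hasCompactSupport ?_
  have h2 : HasCompactSupport fun t : ℝ => a (t / L) := by
    have h3 := ha.supp.comp_homeomorph (Homeomorph.mulRight₀ L⁻¹ (inv_ne_zero hL.ne'))
    simpa [div_eq_mul_inv, Function.comp_def] using h3
  have h4 : HasCompactSupport (sc a L) := by
    have := h2.mul_left (f := fun _ : ℝ => ((2 / L : ℝ) : ℂ))
    exact this
  exact h4.mul_right

theorem hh_eq {a : ℝ → ℂ} (ha : IsAmp a) {L : ℝ} (hL : 0 < L) (τ y : ℝ) :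
    hh (sc a L) τ y = tf a (L * (y - τ)) + tf a (L * (-y - τ)) := by
  have e1 : ∀ t : ℝ, gg (sc a L) τ t * Real.cos (y * t)
      = 1 / 2 * (sc a L t * Complex.exp (Complex.I * (t * (y - τ) : ℝ))).re
        + 1 / 2 * (sc a L t * Complex.exp (Complex.I * (t * (-y - τ) : ℝ))).re := by
    intro t
    unfold gg
    have h1 : Complex.exp (Complex.I * (t * (y - τ) : ℝ))
        = Complex.exp (-((τ * t : ℝ) : ℂ) * Complex.I) * Complex.exp ((y * t : ℝ) * Complex.I) := by
      rw [← Complex.exp_add]; congr 1; push_cast; ring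
    have h2 : Complex.exp (Complex.I * (t * (-y - τ) : ℝ))
        = Complex.exp (-((τ * t : ℝ) : ℂ) * Complex.I) * Complex.exp (-(y * t : ℝ) * Complex.I) := by
      rw [← Complex.exp_add]; congr 1; push_cast; ring
    rw [← mul_add, ← Complex.add_re, h1, h2, ← mul_assoc, ← mul_assoc, ← mul_add]
    have h3 : Complex.exp ((y * t : ℝ) * Complex.I) + Complex.exp (-(y * t : ℝ) * Complex.I)
        = ((2 * Real.cos (y * t) : ℝ) : ℂ) := by
      push_cast
      rw [Complex.cos]
      ring_nf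
    rw [h3, Complex.re_mul_ofReal]
    ring
  have i1 := (sc_integrable ha hL (y - τ)).re
  have i2 := (sc_integrable ha hL (-y - τ)).re
  simp only [RCLike.re_to_complex] at i1 i2
  unfold hh
  simp_rw [e1]
  rw [integral_add (i1.const_mul _) (i2.const_mul _), integral_const_mul, integral_const_mul]
  have e2 := integral_re (𝕜 := ℂ) (sc_integrable ha hL (y - τ))
  have e3 := integral_re (𝕜 := ℂ) (sc_integrable ha hL (-y - τ))
  simp only [RCLike.re_to_complex] at e2 e3
  rw [e2, e3, sc_int ha hL, sc_int ha hL, Complex.ofReal_re, Complex.ofReal_re]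
  ring

/-- Weyl's term. -/
theorem weyl_term {a : ℝ → ℂ} (ha : IsAmp a) : ∃ C : ℝ, 0 ≤ C ∧ ∀ L τ : ℝ, 1 ≤ L → 1 ≤ τ →
    |1 / (2 * Real.pi) * (∫ y in Ioi (0 : ℝ), hh (sc a L) τ y * y) -
      τ / (2 * Real.pi * L) * ∫ y, tf a y| ≤ C / L := by
  set M := ∫ y, |y| * |tf a y| with hM
  have hM0 : 0 ≤ M := integral_nonneg fun y => by positivity
  have hi := tf_int ha
  have hi1 := tf_int1 ha
  have hi2 : Integrable fun y => y * tf a y := by
    refine hi1.mono' (continuous_id.mul (tf_cont ha)).aestronglyMeasurable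
      (Eventually.of_forall fun y => ?_)
    rw [Real.norm_eq_abs, abs_mul]
  refine ⟨1 / (2 * Real.pi) * (3 * M), by positivity, fun L τ hL hτ => ?_⟩
  have hL0 : 0 < L := by linarith
  -- the integrable functions
  have s1 : ∀ (g : ℝ → ℝ) (c : ℝ), ∫ y, g (L * (y - c)) = 1 / L * ∫ y, g y := by
    intro g c
    rw [integral_sub_right_eq_self (fun y => g (L * y)) c, Measure.integral_comp_mul_left,
      abs_of_pos (by positivity), smul_eq_mul, one_div]
  have si1 : ∀ (g : ℝ → ℝ) (c : ℝ), Integrable g → Integrable fun y => g (L * (y - c)) := by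
    intro g c hg
    exact (hg.comp_mul_left' hL0.ne').comp_sub_right c
  have s2 : ∀ (g : ℝ → ℝ) (c : ℝ), ∫ y, g (L * (-y - c)) = 1 / L * ∫ y, g y := by
    intro g c
    rw [integral_neg_eq_self (fun y => g (L * (y - c))) volume, s1]
  have si2 : ∀ (g : ℝ → ℝ) (c : ℝ), Integrable g → Integrable fun y => g (L * (-y - c)) := by
    intro g c hg
    exact (si1 g c hg).comp_neg
  -- first integral
  have f1 : Integrable fun y => tf a (L * (y - τ)) * y := by
    have h1 := (si1 _ τ hi2).const_mul (1 / L)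
    have h2 := (si1 _ τ hi).const_mul τ
    refine (h1.add h2).congr (Eventually.of_forall fun y => ?_)
    simp only [Pi.add_apply]
    field_simp
    ring
  have f1v : ∫ y, tf a (L * (y - τ)) * y = τ / L * (∫ y, tf a y) + 1 / L ^ 2 * ∫ y, y * tf a y := by
    have h1 := (si1 _ τ hi2).const_mul (1 / L)
    have h2 := (si1 _ τ hi).const_mul τ
    have h3 : (fun y => tf a (L * (y - τ)) * y) = fun y => 1 / L * (L * (y - τ) * tf a (L * (y - τ)))
        + τ * tf a (L * (y - τ)) := by
      ext y; field_simp; ring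
    rw [h3, integral_add h1 h2, integral_const_mul, integral_const_mul,
      s1 (fun y => y * tf a y), s1 (tf a)]
    ring
  have f2 : Integrable fun y => tf a (L * (-y - τ)) * y := by
    have h1 := (si2 _ τ hi2).const_mul (-(1 / L))
    have h2 := (si2 _ τ hi).const_mul (-τ)
    refine (h1.add h2).congr (Eventually.of_forall fun y => ?_)
    simp only [Pi.add_apply]
    field_simp
    ring
  have e1 : ∫ y in Ioi (0 : ℝ), hh (sc a L) τ y * y
      = (∫ y in Ioi (0 : ℝ), tf a (L * (y - τ)) * y) + ∫ y in Ioi (0 : ℝ), tf a (L * (-y - τ)) * y := by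
    rw [← integral_add f1.integrableOn f2.integrableOn]
    refine integral_congr_ae (Eventually.of_forall fun y => ?_)
    dsimp only
    rw [hh_eq ha hL0]
    ring
  have e2 : (∫ y in Ioi (0 : ℝ), tf a (L * (y - τ)) * y)
      = (∫ y, tf a (L * (y - τ)) * y) - ∫ y in Iic (0 : ℝ), tf a (L * (y - τ)) * y := by
    have := integral_add_compl (μ := (volume : Measure ℝ)) (s := Iic (0 : ℝ)) measurableSet_Iic f1
    rw [compl_Iic] at this
    linarith
  have b1 : |∫ y in Iic (0 : ℝ), tf a (L * (y - τ)) * y| ≤ 1 / L ^ 2 * M := by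
    have h1 : Integrable fun y => 1 / L * (|L * (y - τ)| * |tf a (L * (y - τ))|) :=
      (si1 _ τ hi1).const_mul (1 / L)
    have h2 : |∫ y in Iic (0 : ℝ), tf a (L * (y - τ)) * y|
        ≤ ∫ y in Iic (0 : ℝ), 1 / L * (|L * (y - τ)| * |tf a (L * (y - τ))|) := by
      rw [← Real.norm_eq_abs]
      refine norm_integral_le_of_norm_le h1.integrableOn ?_
      filter_upwards [ae_restrict_mem measurableSet_Iic] with y hy
      rw [mem_Iic] at hy
      rw [Real.norm_eq_abs, abs_mul, abs_mul, abs_of_pos hL0, abs_of_nonpos hy,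
        abs_of_nonpos (by linarith : y - τ ≤ 0)]
      have h3 := abs_nonneg (tf a (L * (y - τ)))
      have h4 : 1 / L * (L * -(y - τ) * |tf a (L * (y - τ))|) = -(y - τ) * |tf a (L * (y - τ))| := by
        field_simp
      rw [h4, mul_comm]
      gcongr
      linarith
    refine h2.trans ((setIntegral_le_integral h1 (Eventually.of_forall fun y => ?_)).trans ?_)
    · simp only [Pi.zero_apply]; positivity
    · rw [integral_const_mul, s1 (fun y => |y| * |tf a y|)]
      rw [← mul_assoc]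
      refine le_of_eq ?_
      congr 1
      field_simp
  have b2 : |∫ y in Ioi (0 : ℝ), tf a (L * (-y - τ)) * y| ≤ 1 / L ^ 2 * M := by
    have h1 : Integrable fun y => 1 / L * (|L * (-y - τ)| * |tf a (L * (-y - τ))|) :=
      (si2 _ τ hi1).const_mul (1 / L)
    have h2 : |∫ y in Ioi (0 : ℝ), tf a (L * (-y - τ)) * y|
        ≤ ∫ y in Ioi (0 : ℝ), 1 / L * (|L * (-y - τ)| * |tf a (L * (-y - τ))|) := by
      rw [← Real.norm_eq_abs]
      refine norm_integral_le_of_norm_le h1.integrableOn ?_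
      filter_upwards [ae_restrict_mem measurableSet_Ioi] with y hy
      rw [mem_Ioi] at hy
      rw [Real.norm_eq_abs, abs_mul, abs_mul, abs_of_pos hL0, abs_of_pos hy,
        abs_of_nonpos (by linarith : -y - τ ≤ 0)]
      have h3 := abs_nonneg (tf a (L * (-y - τ)))
      have h4 : 1 / L * (L * -(-y - τ) * |tf a (L * (-y - τ))|) = -(-y - τ) * |tf a (L * (-y - τ))| := by
        field_simp
      rw [h4, mul_comm]
      gcongr
      linarith
    refine h2.trans ((setIntegral_le_integral h1 (Eventually.of_forall fun y => ?_)).trans ?_)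
    · simp only [Pi.zero_apply]; positivity
    · rw [integral_const_mul, s2 (fun y => |y| * |tf a y|)]
      rw [← mul_assoc]
      refine le_of_eq ?_
      congr 1
      field_simp
  have b3 : |∫ y, y * tf a y| ≤ M := by
    rw [← Real.norm_eq_abs]
    refine norm_integral_le_of_norm_le hi1 (Eventually.of_forall fun y => ?_)
    rw [Real.norm_eq_abs, abs_mul]
  rw [e1, e2, f1v]
  have e4 : 1 / (2 * Real.pi) * ((τ / L * (∫ y, tf a y) + 1 / L ^ 2 * (∫ y, y * tf a y)) -
      (∫ y in Iic (0 : ℝ), tf a (L * (y - τ)) * y) + ∫ y in Ioi (0 : ℝ), tf a (L * (-y - τ)) * y) -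
      τ / (2 * Real.pi * L) * ∫ y, tf a y = 1 / (2 * Real.pi) * (1 / L ^ 2 * (∫ y, y * tf a y) -
        (∫ y in Iic (0 : ℝ), tf a (L * (y - τ)) * y) + ∫ y in Ioi (0 : ℝ),
          tf a (L * (-y - τ)) * y) := by
    have := Real.pi_ne_zero
    field_simp
    ring
  rw [e4, abs_mul, abs_of_pos (by positivity : 0 < 1 / (2 * Real.pi))]
  have h5 : |1 / L ^ 2 * (∫ y, y * tf a y) - (∫ y in Iic (0 : ℝ), tf a (L * (y - τ)) * y) +
      ∫ y in Ioi (0 : ℝ), tf a (L * (-y - τ)) * y| ≤ 1 / L ^ 2 * M + 1 / L ^ 2 * M + 1 / L ^ 2 * M := by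
    refine (abs_add_le _ _).trans (add_le_add ((abs_sub _ _).trans (add_le_add ?_ b1)) b2)
    rw [abs_mul, abs_of_pos (by positivity : 0 < 1 / L ^ 2)]
    gcongr
  have h6 : 1 / L ^ 2 * M ≤ 1 / L * M := by
    refine mul_le_mul_of_nonneg_right ?_ hM0
    refine one_div_le_one_div_of_le hL0 ?_
    nlinarith
  have h7 : 1 / (2 * Real.pi) * (3 * M) / L = 1 / (2 * Real.pi) * (3 * (1 / L * M)) := by ring
  rw [h7]
  refine mul_le_mul_of_nonneg_left ?_ (by positivity)
  linarith

end GWin
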