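import Pool.Agent.LibGWa.U2

/-! The linear statistic: convergence, continuity, and the reflected sum. -/

open MeasureTheory Set Filter Topology FG33
open scoped ContDiff

namespace GWin

/-- Growth of the levels. -/
structure Lev (κ : ℕ → ℝ) : Prop where
  nn : ∀ n, 0 ≤ κ n
  grow : ∃ c > 0, ∀ n : ℕ, c * √n ≤ κ n + 1

/-- The linear statistic of the levels `κ`. -/
noncomputable def st (κ : ℕ → ℝ) (a : ℝ → ℂ) (l τ : ℝ) : ℝ :=
  ∑' k, tf a (l * (κ k - τ)) - τ / (2 * Real.pi * l) * ∫ y, tf a y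

theorem zsum {κ : ℕ → ℝ} (h : Lev κ) : Summable fun n => 1 / (κ n + 1) ^ 4 := by
  obtain ⟨c, hc, hg⟩ := h.grow
  have h1 : Summable fun n : ℕ => 1 / c ^ 4 * (1 / (n : ℝ) ^ 2) :=
    (Real.summable_one_div_nat_pow.mpr one_lt_two).mul_left _
  refine Summable.of_norm_bounded_eventually_nat h1 ?_
  filter_upwards [eventually_ge_atTop 1] with n hn
  have h2 := h.nn n
  have hn' : (1 : ℝ) ≤ n := by exact_mod_cast hn
  have h3 : (c * √n) ^ 4 ≤ (κ n + 1) ^ 4 := by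
    have := hg n
    gcongr
  have h4 : (c * √(n : ℝ)) ^ 4 = c ^ 4 * (n : ℝ) ^ 2 := by
    rw [mul_pow]
    congr 1
    rw [show (4 : ℕ) = 2 * 2 by norm_num, pow_mul, Real.sq_sqrt (by positivity)]
  rw [Real.norm_of_nonneg (by positivity)]
  rw [show 1 / c ^ 4 * (1 / (n : ℝ) ^ 2) = 1 / (c ^ 4 * (n : ℝ) ^ 2) by
    field_simp]
  refine one_div_le_one_div_of_le (by positivity) ?_
  rw [← h4]
  exact h3

/-- Uniform bound of the terms. -/
theorem term_bound {a : ℝ → ℂ} {B : ℝ} (hB : 0 < B) (hb : ∀ y, |tf a y| ≤ B / (1 + |y|) ^ 4)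
    {κ : ℕ → ℝ} (h : Lev κ) {L : ℝ} (hL : 0 < L) (τ : ℝ) (n : ℕ) :
    |tf a (L * (κ n - τ))| ≤ B * ((1 + |τ|) / min 1 L) ^ 4 * (1 / (κ n + 1) ^ 4) := by
  have hm : 0 < min 1 L := lt_min one_pos hL
  have h0 := h.nn n
  have h1 : min 1 L * (1 + |κ n - τ|) ≤ 1 + |L * (κ n - τ)| := by
    rw [abs_mul, abs_of_pos hL, mul_add, mul_one]
    have := abs_nonneg (κ n - τ)
    exact add_le_add (min_le_left _ _) (mul_le_mul_of_nonneg_right (min_le_right _ _) this)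
  have h2 : κ n + 1 ≤ (1 + |τ|) * (1 + |κ n - τ|) := by
    have h3 := abs_nonneg τ
    have h4 := abs_nonneg (κ n - τ)
    have h5 := le_abs_self (κ n - τ)
    have h6 := le_abs_self τ
    nlinarith [mul_nonneg h3 h4]
  have h3 : min 1 L / (1 + |τ|) * (κ n + 1) ≤ 1 + |L * (κ n - τ)| := by
    refine le_trans ?_ h1
    rw [div_mul_eq_mul_div, div_le_iff₀ (by positivity)]
    calc min 1 L * (κ n + 1) ≤ min 1 L * ((1 + |τ|) * (1 + |κ n - τ|)) := by gcongr
      _ = _ := by ring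
  refine (hb _).trans ?_
  have h4 : 0 < min 1 L / (1 + |τ|) * (κ n + 1) := by positivity
  calc B / (1 + |L * (κ n - τ)|) ^ 4 ≤ B / (min 1 L / (1 + |τ|) * (κ n + 1)) ^ 4 := by gcongr
    _ = _ := by
      have := hm.ne'
      field_simp

theorem term_summable {a : ℝ → ℂ} (ha : IsAmp a) {κ : ℕ → ℝ} (h : Lev κ) {L : ℝ} (hL : 0 < L)
    (τ : ℝ) : Summable fun n => tf a (L * (κ n - τ)) := by
  obtain ⟨B, hB, hb⟩ := tf_decay ha
  refine Summable.of_norm_bounded ((zsum h).mul_left (B * ((1 + |τ|) / min 1 L) ^ 4)) fun n => ?_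
  exact term_bound hB hb h hL τ n

theorem st_cont {a : ℝ → ℂ} (ha : IsAmp a) {κ : ℕ → ℝ} (h : Lev κ) {L : ℝ} (hL : 0 < L) :
    Continuous (st κ a L) := by
  obtain ⟨B, hB, hb⟩ := tf_decay ha
  have hm : 0 < min 1 L := lt_min one_pos hL
  have h1 : Continuous fun τ => ∑' k, tf a (L * (κ k - τ)) := by
    rw [continuous_iff_continuousAt]
    intro x
    have h2 : ContinuousOn (fun τ => ∑' k, tf a (L * (κ k - τ))) (Icc (-(|x| + 1)) (|x| + 1)) := by
      refine continuousOn_tsum (u := fun n => B * ((1 + (|x| + 1)) / min 1 L) ^ 4 *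
        (1 / (κ n + 1) ^ 4)) ?_ ((zsum h).mul_left _) ?_
      · intro n
        exact ((tf_cont ha).comp (by fun_prop)).continuousOn
      · intro n τ hτ
        refine (term_bound hB hb h hL τ n).trans ?_
        have h3 : |τ| ≤ |x| + 1 := abs_le.2 hτ
        have h4 := h.nn n
        gcongr
    refine h2.continuousAt (Icc_mem_nhds ?_ ?_)
    · have := neg_abs_le x; linarith
    · have := le_abs_self x; linarith
  unfold st
  exact h1.sub (by fun_prop)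

/-- The reflected sum. -/
theorem refl_sum {a : ℝ → ℂ} (ha : IsAmp a) {κ : ℕ → ℝ} (h : Lev κ) : ∃ C : ℝ, 0 ≤ C ∧
    ∀ L τ : ℝ, 1 ≤ L → 1 ≤ τ → Summable (fun n => tf a (L * (-κ n - τ))) ∧
      |∑' n, tf a (L * (-κ n - τ))| ≤ C / L := by
  obtain ⟨B, hB, hb⟩ := tf_decay ha
  refine ⟨B * ∑' n, 1 / (κ n + 1) ^ 4, ?_, fun L τ hL hτ => ?_⟩
  · refine mul_nonneg hB.le (tsum_nonneg fun n => ?_)
    have := h.nn n
    positivity
  have key : ∀ n, ‖tf a (L * (-κ n - τ))‖ ≤ B / L * (1 / (κ n + 1) ^ 4) := by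
    intro n
    have h0 := h.nn n
    have hL0 : 0 < L := by linarith
    have h1 : L * (κ n + 1) ≤ 1 + |L * (-κ n - τ)| := by
      rw [abs_mul, abs_of_pos hL0, abs_of_nonpos (by linarith)]
      nlinarith
    have h2 : L * (κ n + 1) ^ 4 ≤ (L * (κ n + 1)) ^ 4 := by
      rw [mul_pow]
      have h3 : L ≤ L ^ 4 := by
        calc L = L ^ 1 := (pow_one L).symm
          _ ≤ L ^ 4 := pow_le_pow_right₀ hL (by norm_num)
      gcongr
    rw [Real.norm_eq_abs]
    refine (hb _).trans ?_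
    calc B / (1 + |L * (-κ n - τ)|) ^ 4 ≤ B / (L * (κ n + 1)) ^ 4 := by gcongr
      _ ≤ B / (L * (κ n + 1) ^ 4) := by gcongr
      _ = _ := by field_simp
  have hs := (zsum h).mul_left (B / L)
  refine ⟨Summable.of_norm_bounded hs key, ?_⟩
  have h1 := tsum_of_norm_bounded hs.hasSum key
  rw [Real.norm_eq_abs] at h1
  refine h1.trans (le_of_eq ?_)
  rw [tsum_mul_left]
  ring

theorem hh_sum {a : ℝ → ℂ} (ha : IsAmp a) {κ : ℕ → ℝ} (h : Lev κ) {L τ : ℝ} (hL : 1 ≤ L)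
    (hτ : 1 ≤ τ) : ∑' n, hh (sc a L) τ (κ n)
      = ∑' n, tf a (L * (κ n - τ)) + ∑' n, tf a (L * (-κ n - τ)) := by
  obtain ⟨C, _, hC⟩ := refl_sum ha h
  have hL0 : 0 < L := by linarith
  rw [← (term_summable ha h hL0 τ).tsum_add (hC L τ hL hτ).1]
  exact tsum_congr fun n => hh_eq ha hL0 τ (κ n)

end GWin
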