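import Pool.Agent.LibGWa.Vdefs

/-! Sums over the repetitions; the sum rule for the primitive closed geodesics. -/

open MeasureTheory Set Filter Topology

namespace GWin

variable {G : Geo} {κ : ℝ}

theorem pairs_sum (h : Ok G κ) {t : ℝ} {K : ℕ} (hK : ∀ p, t < ((K : ℝ) + 1) * G.len p)
    (F : G.P → ℕ → ℝ) (hF : ∀ (p : G.P) (k : ℕ), 1 ≤ k → t < (k : ℝ) * G.len p → F p k = 0) :
    ∑ᶠ q ∈ {q : G.P × ℕ | 1 ≤ q.2}, F q.1 q.2
      = ∑ p ∈ ball G t, ∑ k ∈ Finset.range K, F p (k + 1) := by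
  have h1 : ∑ᶠ q ∈ {q : G.P × ℕ | 1 ≤ q.2}, F q.1 q.2
      = ∑ q ∈ ball G t ×ˢ Finset.Ico 1 (K + 1), F q.1 q.2 := by
    refine finsum_mem_eq_sum_of_inter_support_eq _ ?_
    ext ⟨p, k⟩
    simp only [mem_inter_iff, mem_ofPred_eq, Function.mem_support, Finset.coe_product, mem_prod,
      Finset.mem_coe, mem_ball h, Finset.coe_Ico, mem_Ico]
    constructor
    · rintro ⟨h1, h2⟩
      have h3 : (k : ℝ) * G.len p ≤ t := by
        by_contra h3
        exact h2 (hF p k h1 (not_le.mp h3))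
      have h4 : (1 : ℝ) ≤ k := by exact_mod_cast h1
      have h5 := h.pos p
      refine ⟨⟨by nlinarith, h1, ?_⟩, h2⟩
      have h6 : (k : ℝ) < (K : ℝ) + 1 := by
        have := h3.trans_lt (hK p)
        exact lt_of_mul_lt_mul_right this h5.le
      exact_mod_cast h6
    · rintro ⟨⟨_, h2, _⟩, h4⟩
      exact ⟨h2, h4⟩
  rw [h1, Finset.sum_product]
  refine Finset.sum_congr rfl fun p _ => ?_
  rw [Finset.sum_Ico_eq_sum_range]
  refine Finset.sum_congr (by simp) fun k _ => ?_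
  rw [add_comm 1 k]

theorem exists_K (h : Ok G κ) (t : ℝ) : ∃ K : ℕ, ∀ p, t < ((K : ℝ) + 1) * G.len p := by
  obtain ⟨l0, hl0, hl⟩ := exists_l0 h
  refine ⟨⌈t / l0⌉₊, fun p => ?_⟩
  have h1 : t / l0 < (⌈t / l0⌉₊ : ℝ) + 1 := (Nat.le_ceil _).trans_lt (lt_add_one _)
  rw [div_lt_iff₀ hl0] at h1
  refine h1.trans_le ?_
  have := hl p
  gcongr

theorem rep_le (h : Ok G κ) (p : G.P) (k : ℕ) :
    G.len p / G.tw p (k + 1) ≤ w G p * Real.exp (-(κ * G.len p)) ^ k := by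
  have h1 := tw1_pos h p
  have h2 := h.pw p (k + 1) (by omega)
  have h3 : 0 < G.tw p 1 * Real.exp ((((k + 1 : ℕ) : ℝ) - 1) * (κ * G.len p)) :=
    mul_pos h1 (Real.exp_pos _)
  have h4 : G.len p / G.tw p (k + 1) ≤ G.len p /
      (G.tw p 1 * Real.exp ((((k + 1 : ℕ) : ℝ) - 1) * (κ * G.len p))) :=
    div_le_div_of_nonneg_left (h.pos p).le h3 h2
  refine h4.trans (le_of_eq ?_)
  unfold w
  rw [← Real.exp_nat_mul, div_mul_eq_div_div, div_eq_mul_inv _ (Real.exp _), ← Real.exp_neg]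
  congr 2
  push_cast
  ring

theorem geo_sum_le {r r0 : ℝ} (hr : 0 ≤ r) (hr0 : r ≤ r0) (h1 : r0 < 1) (K : ℕ) :
    ∑ k ∈ Finset.range K, r ^ k ≤ 1 / (1 - r0) := by
  have h2 : r < 1 := hr0.trans_lt h1
  have h3 : ∑ k ∈ Finset.range K, r ^ k ≤ ∑' k : ℕ, r ^ k :=
    (summable_geometric_of_lt_one hr h2).sum_le_tsum _ fun k _ => pow_nonneg hr k
  rw [tsum_geometric_of_lt_one hr h2] at h3
  refine h3.trans ?_
  rw [← one_div]
  exact one_div_le_one_div_of_le (by linarith) (by linarith)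

/-- The bound of the repetition factors. -/
theorem exists_r0 (h : Ok G κ) : ∃ r0 : ℝ, 0 < r0 ∧ r0 < 1 ∧
    ∀ p, Real.exp (-(κ * G.len p)) ≤ r0 := by
  obtain ⟨l0, hl0, hl⟩ := exists_l0 h
  have hk := h.kpos
  refine ⟨Real.exp (-(κ * l0)), Real.exp_pos _, ?_, fun p => ?_⟩
  · rw [Real.exp_lt_one_iff]
    have : 0 < κ * l0 := by positivity
    linarith
  · rw [Real.exp_le_exp]
    have := hl p
    have : κ * l0 ≤ κ * G.len p := by gcongr
    linarith

theorem full_bounds (h : Ok G κ) : ∃ C : ℝ, 0 ≤ C ∧ ∀ t : ℝ,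
    Psi G t ≤ ∑ᶠ q ∈ {q : G.P × ℕ | 1 ≤ q.2 ∧ q.2 * G.len q.1 ≤ t}, G.len q.1 / G.tw q.1 q.2 ∧
    ∑ᶠ q ∈ {q : G.P × ℕ | 1 ≤ q.2 ∧ q.2 * G.len q.1 ≤ t}, G.len q.1 / G.tw q.1 q.2
      ≤ Psi G t + C * ∑ p ∈ ball G t, w G p * Real.exp (-(κ * G.len p)) := by
  classical
  obtain ⟨r0, hr0, hr1, hr⟩ := exists_r0 h
  refine ⟨1 / (1 - r0), by have : 0 < 1 - r0 := by linarith
                           positivity, fun t => ?_⟩
  obtain ⟨K, hK⟩ := exists_K h t
  -- K can be taken positive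
  have hK' : ∀ p, t < (((K + 1 : ℕ) : ℝ) + 1) * G.len p := fun p => by
    have := hK p
    have h5 := h.pos p
    push_cast
    nlinarith
  have e1 : ∑ᶠ q ∈ {q : G.P × ℕ | 1 ≤ q.2 ∧ q.2 * G.len q.1 ≤ t}, G.len q.1 / G.tw q.1 q.2
      = ∑ p ∈ ball G t, ∑ k ∈ Finset.range (K + 1),
        (if ((k + 1 : ℕ) : ℝ) * G.len p ≤ t then G.len p / G.tw p (k + 1) else 0) := by
    have e2 : ∑ᶠ q ∈ {q : G.P × ℕ | 1 ≤ q.2 ∧ q.2 * G.len q.1 ≤ t}, G.len q.1 / G.tw q.1 q.2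
        = ∑ᶠ q ∈ {q : G.P × ℕ | 1 ≤ q.2},
          (fun (p : G.P) (k : ℕ) => if (k : ℝ) * G.len p ≤ t then G.len p / G.tw p k else 0)
            q.1 q.2 := by
      rw [← finsum_mem_inter_support_eq' (s := {q : G.P × ℕ | 1 ≤ q.2 ∧ q.2 * G.len q.1 ≤ t})
        (t := {q : G.P × ℕ | 1 ≤ q.2}) (f := fun q : G.P × ℕ =>
          if (q.2 : ℝ) * G.len q.1 ≤ t then G.len q.1 / G.tw q.1 q.2 else 0)]
      · refine finsum_mem_congr rfl fun q hq => ?_
        rw [if_pos hq.2]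
      · intro q hq
        simp only [Function.mem_support, ne_eq, ite_eq_right_iff, Classical.not_imp] at hq
        simp only [mem_ofPred_eq]
        exact ⟨fun h => h.1, fun h => ⟨h, hq.1⟩⟩
    rw [e2, pairs_sum h hK' (fun (p : G.P) (k : ℕ) =>
      if (k : ℝ) * G.len p ≤ t then G.len p / G.tw p k else 0)]
    intro p k _ h2
    rw [if_neg (not_le.mpr h2)]
  have nn : ∀ (p : G.P) (k : ℕ), 0 ≤ G.len p / G.tw p (k + 1) := fun p k =>
    div_nonneg (h.pos p).le (tw_pos h p (by omega)).le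
  rw [e1]
  constructor
  · refine Finset.sum_le_sum fun p hp => ?_
    have h2 : w G p = (fun k : ℕ => if ((k + 1 : ℕ) : ℝ) * G.len p ≤ t then
        G.len p / G.tw p (k + 1) else 0) 0 := by
      dsimp only
      rw [if_pos]
      · rfl
      · have := (mem_ball h).1 hp
        simpa using this
    rw [h2]
    refine Finset.single_le_sum (f := fun k : ℕ => if ((k + 1 : ℕ) : ℝ) * G.len p ≤ t then
        G.len p / G.tw p (k + 1) else 0) (fun k _ => ?_) (by simp)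
    split_ifs
    · exact nn p k
    · exact le_rfl
  · unfold Psi
    rw [Finset.mul_sum, ← Finset.sum_add_distrib]
    refine Finset.sum_le_sum fun p _ => ?_
    have h3 : ∑ k ∈ Finset.range (K + 1), (if ((k + 1 : ℕ) : ℝ) * G.len p ≤ t then
        G.len p / G.tw p (k + 1) else 0) ≤ ∑ k ∈ Finset.range (K + 1),
          w G p * Real.exp (-(κ * G.len p)) ^ k := by
      refine Finset.sum_le_sum fun k _ => ?_
      split_ifs
      · exact rep_le h p k
      · exact (nn p k).trans (rep_le h p k)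
    refine h3.trans ?_
    rw [Finset.sum_range_succ']
    simp only [pow_zero, mul_one, pow_succ]
    have h4 : ∑ k ∈ Finset.range K, w G p * (Real.exp (-(κ * G.len p)) ^ k *
        Real.exp (-(κ * G.len p))) = (∑ k ∈ Finset.range K, Real.exp (-(κ * G.len p)) ^ k) *
          (w G p * Real.exp (-(κ * G.len p))) := by
      rw [Finset.sum_mul]
      exact Finset.sum_congr rfl fun _ _ => by ring
    rw [h4, add_comm]
    have h5 := geo_sum_le (Real.exp_pos (-(κ * G.len p))).le (hr p) hr1 K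
    have h6 : 0 ≤ w G p * Real.exp (-(κ * G.len p)) := mul_nonneg (w_pos h p).le (Real.exp_pos _).le
    gcongr

end GWin
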