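import Pool.Agent.LibGWa.V2

/-! Abel summation. -/

open MeasureTheory Set Filter Topology

namespace GWin

variable {G : Geo} {κ : ℝ}

theorem abel_identity (h : Ok G κ) {φ : ℝ → ℝ} (hφ : ContDiff ℝ 1 φ) {R : ℝ} (hR : 0 ≤ R)
    (h0 : ∀ s, R ≤ s → φ s = 0) {L : ℝ} (hL : 0 < L) :
    1 / L * ∑ p ∈ ball G (R * L), w G p * φ (G.len p / L)
      = -∫ u in (0 : ℝ)..R, deriv φ u * (Psi G (L * u) / L) := by
  classical
  have hc : Continuous (deriv φ) := hφ.continuous_deriv le_rfl
  have e1 : ∀ u ∈ uIcc (0 : ℝ) R, deriv φ u * (Psi G (L * u) / L)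
      = ∑ p ∈ ball G (R * L), (1 / L * w G p) * (Ici (G.len p / L)).indicator (deriv φ) u := by
    intro u hu
    rw [uIcc_of_le hR] at hu
    have h1 : Psi G (L * u) = ∑ p ∈ ball G (R * L), if G.len p ≤ L * u then w G p else 0 := by
      unfold Psi
      rw [← Finset.sum_filter]
      refine Finset.sum_congr ?_ fun _ _ => rfl
      ext p
      rw [Finset.mem_filter, mem_ball h, mem_ball h]
      constructor
      · intro h2
        exact ⟨h2.trans (by rw [mul_comm]; exact mul_le_mul_of_nonneg_right hu.2 hL.le), h2⟩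
      · exact fun h2 => h2.2
    rw [h1, mul_div_assoc', Finset.mul_sum, Finset.sum_div]
    refine Finset.sum_congr rfl fun p _ => ?_
    by_cases h2 : G.len p ≤ L * u
    · rw [if_pos h2, indicator_of_mem]
      · ring
      · rw [mem_Ici, div_le_iff₀ hL]; linarith
    · rw [if_neg h2, indicator_of_notMem]
      · ring
      · rw [mem_Ici, div_le_iff₀ hL]; linarith
  rw [intervalIntegral.integral_congr e1, intervalIntegral.integral_finset_sum]
  · rw [Finset.mul_sum, ← Finset.sum_neg_distrib]
    refine Finset.sum_congr rfl fun p hp => ?_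
    rw [mem_ball h] at hp
    have h3 : 0 ≤ G.len p / L := div_nonneg (h.pos p).le hL.le
    have h4 : G.len p / L ≤ R := by rw [div_le_iff₀ hL]; exact hp
    rw [intervalIntegral.integral_const_mul]
    have h5 : ∫ u in (0 : ℝ)..R, (Ici (G.len p / L)).indicator (deriv φ) u
        = ∫ u in (G.len p / L)..R, deriv φ u := by
      rw [intervalIntegral.integral_of_le hR, intervalIntegral.integral_of_le h4,
        setIntegral_indicator measurableSet_Ici]
      rw [← integral_Icc_eq_integral_Ioc]
      rcases h3.eq_or_lt with h6 | h6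
      · rw [← h6]
        rw [show Ioc 0 R ∩ Ici (0 : ℝ) = Ioc 0 R by
          ext x; simp only [mem_inter_iff, mem_Ioc, mem_Ici]; constructor
          · exact fun h => h.1
          · exact fun h => ⟨h, h.1.le⟩]
        rw [integral_Icc_eq_integral_Ioc]
      · congr 2
        ext x; simp only [mem_inter_iff, mem_Ioc, mem_Ici, mem_Icc]; constructor
        · exact fun h => ⟨h.2, h.1.2⟩
        · exact fun h => ⟨⟨h6.trans_le h.1, h.2⟩, h.1⟩
    rw [h5, intervalIntegral.integral_deriv_eq_sub
      (fun x _ => (hφ.differentiable one_ne_zero) x) (hc.intervalIntegrable _ _), h0 R le_rfl]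
    ring
  · intro p _
    refine IntervalIntegrable.const_mul ?_ _
    rw [intervalIntegrable_iff]
    exact (hc.integrableOn_uIcc.mono_set uIoc_subset_uIcc).indicator measurableSet_Ici

theorem abel_limit (h : Ok G κ) (hS : SumRule G) {φ : ℝ → ℝ} (hφ : ContDiff ℝ 1 φ) {R : ℝ}
    (hR : 0 ≤ R) (h0 : ∀ s, R ≤ s → φ s = 0) :
    Tendsto (fun L : ℝ => 1 / L * ∑ p ∈ ball G (R * L), w G p * φ (G.len p / L)) atTop
      (𝓝 (1 / 2 * ∫ u in (0 : ℝ)..R, φ u)) := by
  have hc : Continuous (deriv φ) := hφ.continuous_deriv le_rfl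
  obtain ⟨M, hM, hg⟩ := Psi_growth h hS
  have hP := Psi_tendsto h hS
  have e1 : (1 / 2 * ∫ u in (0 : ℝ)..R, φ u) = -∫ u in (0 : ℝ)..R, deriv φ u * (1 / 2 * u) := by
    have h1 := intervalIntegral.integral_deriv_mul_eq_sub (a := (0 : ℝ)) (b := R) (u := φ)
      (v := fun u => u) (u' := deriv φ) (v' := fun _ => 1)
      (fun x _ => ((hφ.differentiable one_ne_zero) x).hasDerivAt) (fun x _ => hasDerivAt_id x)
      (hc.intervalIntegrable _ _) (continuous_const.intervalIntegrable _ _)
    rw [h0 R le_rfl, zero_mul, mul_zero, sub_zero, intervalIntegral.integral_add] at h1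
    · have h2 : ∫ u in (0 : ℝ)..R, deriv φ u * (1 / 2 * u) = 1 / 2 * ∫ u in (0 : ℝ)..R,
          deriv φ u * u := by
        rw [← intervalIntegral.integral_const_mul]
        refine intervalIntegral.integral_congr fun x _ => ?_
        ring
      rw [h2]
      simp only [mul_one] at h1
      linarith
    · exact (hc.mul continuous_id).intervalIntegrable _ _
    · exact (hφ.continuous.mul continuous_const).intervalIntegrable _ _
  rw [e1]
  have e2 : (fun L : ℝ => 1 / L * ∑ p ∈ ball G (R * L), w G p * φ (G.len p / L)) =ᶠ[atTop]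
      fun L => -∫ u in (0 : ℝ)..R, deriv φ u * (Psi G (L * u) / L) := by
    filter_upwards [eventually_gt_atTop 0] with L hL
    exact abel_identity h hφ hR h0 hL
  refine Tendsto.congr' e2.symm (Tendsto.neg ?_)
  refine intervalIntegral.tendsto_integral_filter_of_dominated_convergence
    (fun u => |deriv φ u| * (M * (1 + |u|))) ?_ ?_ ?_ ?_
  · filter_upwards [eventually_gt_atTop 0] with L hL
    have hm : Measurable (Psi G) := (Psi_mono h).measurable
    exact (hc.measurable.mul ((hm.comp (measurable_const.mul measurable_id)).div_const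
      _)).aestronglyMeasurable
  · filter_upwards [eventually_ge_atTop 1] with L hL
    refine Eventually.of_forall fun u hu => ?_
    rw [uIoc_of_le hR] at hu
    have hL0 : 0 < L := by linarith
    rw [Real.norm_eq_abs, abs_mul]
    refine mul_le_mul_of_nonneg_left ?_ (abs_nonneg _)
    rw [abs_of_nonneg (div_nonneg (Psi_nonneg h _) hL0.le), abs_of_pos hu.1, div_le_iff₀ hL0]
    have h1 := hg (L * u) (by have := hu.1; positivity)
    nlinarith [mul_pos hM hL0]
  · exact (hc.abs.mul (continuous_const.mul (continuous_const.add continuous_abs))).intervalIntegrable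
      _ _
  · refine Eventually.of_forall fun u hu => ?_
    rw [uIoc_of_le hR] at hu
    refine Tendsto.const_mul _ ?_
    have h1 : Tendsto (fun L : ℝ => Psi G (L * u) / (L * u)) atTop (𝓝 (1 / 2)) :=
      hP.comp (tendsto_id.atTop_mul_const hu.1)
    have h2 := h1.mul_const u
    refine h2.congr' ?_
    filter_upwards [eventually_gt_atTop 0] with L hL
    have := hu.1
    field_simp

end GWin
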