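import Mathlib

/-! Growing windows: abstract data of a closed surface of negative curvature (lengths of the
primitive closed geodesics, traces of their Poincaré maps). -/

open MeasureTheory Set Filter Topology

namespace GWin

/-- The primitive closed geodesics `p` (without orientation), their lengths, and
`tw p k = |det (1 - P_p ^ k)|` for their Poincaré maps `P_p`. -/
structure Geo where
  P : Type
  len : P → ℝ
  tw : P → ℕ → ℝ

/-- Lengths are positive and locally finite with an exponential bound, uniform hyperbolicity. -/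
structure Ok (G : Geo) (κ : ℝ) : Prop where
  kpos : 0 < κ
  pos : ∀ p, 0 < G.len p
  fin : ∀ t, {p | G.len p ≤ t}.Finite
  count : ∃ C, ∀ t, 0 ≤ t → (({p | G.len p ≤ t}.ncard : ℕ) : ℝ) ≤ Real.exp (C * t)
  lb : ∀ p : G.P, 4 * Real.sinh (κ * G.len p / 2) ^ 2 ≤ G.tw p 1
  pw : ∀ (p : G.P) (k : ℕ), 1 ≤ k → G.tw p 1 * Real.exp ((k - 1) * (κ * G.len p)) ≤ G.tw p k

/-- The finite set of the primitive closed geodesics of length at most `t`. -/
noncomputable def ball (G : Geo) (t : ℝ) : Finset G.P :=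
  open Classical in if h : {p | G.len p ≤ t}.Finite then h.toFinset else ∅

/-- The weights of the sum rule. -/
noncomputable def w (G : Geo) (p : G.P) : ℝ := G.len p / G.tw p 1

/-- The sum rule in the mean, unoriented. -/
def SumRule (G : Geo) : Prop :=
  Tendsto (fun t : ℝ => (∑ᶠ q ∈ {q : G.P × ℕ | 1 ≤ q.2 ∧ q.2 * G.len q.1 ≤ t},
    G.len q.1 / G.tw q.1 q.2) / t) atTop (𝓝 (1 / 2))

/-- The sum rule for the primitive closed geodesics. -/
noncomputable def Psi (G : Geo) (t : ℝ) : ℝ := ∑ p ∈ ball G t, w G p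

/-- The amplitude of the `(k + 1)`-fold repetition of `p`, in the window `1 / L`. -/
noncomputable def amp (G : Geo) (a : ℝ → ℂ) (L : ℝ) (p : G.P) (k : ℕ) : ℂ :=
  ((4 / L * (G.len p / √(G.tw p (k + 1))) : ℝ) : ℂ) * a (((k : ℝ) + 1) * G.len p / L)

/-- The variance of the linear statistics of the GOE. -/
noncomputable def vg (a : ℝ → ℂ) : ℝ := 4 * ∫ s in Ioi (0 : ℝ), s * ‖a s‖ ^ 2

section basic

variable {G : Geo} {κ : ℝ}

theorem mem_ball (h : Ok G κ) {t : ℝ} {p : G.P} : p ∈ ball G t ↔ G.len p ≤ t := by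
  unfold ball
  rw [dif_pos (h.fin t)]
  simp

theorem tw1_pos (h : Ok G κ) (p : G.P) : 0 < G.tw p 1 := by
  refine lt_of_lt_of_le ?_ (h.lb p)
  have h1 : 0 < Real.sinh (κ * G.len p / 2) := by
    rw [Real.sinh_pos_iff]
    have := h.kpos
    have := h.pos p
    positivity
  positivity

theorem tw_pos (h : Ok G κ) (p : G.P) {k : ℕ} (hk : 1 ≤ k) : 0 < G.tw p k :=
  lt_of_lt_of_le (mul_pos (tw1_pos h p) (Real.exp_pos _)) (h.pw p k hk)

theorem w_pos (h : Ok G κ) (p : G.P) : 0 < w G p := div_pos (h.pos p) (tw1_pos h p)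

theorem exists_l0 (h : Ok G κ) : ∃ l₀ > 0, ∀ p, l₀ ≤ G.len p := by
  rcases (ball G 1).eq_empty_or_nonempty with h0 | h0
  · refine ⟨1, one_pos, fun p => ?_⟩
    by_contra hp
    have : p ∈ ball G 1 := (mem_ball h).2 (not_le.mp hp).le
    rw [h0] at this
    simp at this
  · obtain ⟨q, hq, hq'⟩ := (ball G 1).exists_min_image G.len h0
    refine ⟨min 1 (G.len q), lt_min one_pos (h.pos q), fun p => ?_⟩
    rcases le_or_gt (G.len p) 1 with hp | hp
    · exact (min_le_right _ _).trans (hq' p ((mem_ball h).2 hp))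
    · exact (min_le_left _ _).trans hp.le

theorem Psi_nonneg (h : Ok G κ) (t : ℝ) : 0 ≤ Psi G t :=
  Finset.sum_nonneg fun p _ => (w_pos h p).le

theorem ball_mono (h : Ok G κ) {s t : ℝ} (hst : s ≤ t) : ball G s ⊆ ball G t := by
  intro p hp
  rw [mem_ball h] at hp ⊢
  exact hp.trans hst

theorem Psi_mono (h : Ok G κ) : Monotone (Psi G) := fun _ _ hst =>
  Finset.sum_le_sum_of_subset_of_nonneg (ball_mono h hst) fun p _ _ => (w_pos h p).le

end basic

end GWin
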